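import Mathlib

set_option autoImplicit false

namespace Pool.Agent.FCU

universe u

/-- `SDF D`: the group `D` embeds in a restricted direct product of finite groups. -/
def SDF (D : Type u) [Group D] : Prop :=
  ∃ (ι : Type u) (F : ι → Type u) (inst : ∀ i, Group (F i)) (_ : ∀ i, Finite (F i))
    (f : D →* ((i : ι) → F i)), Function.Injective f ∧ ∀ x, {i : ι | f x i ≠ 1}.Finite

theorem SDF.of_injective {D E : Type u} [Group D] [Group E] (h : SDF E) (g : D →* E)
    (hg : Function.Injective g) : SDF D := by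
  obtain ⟨ι, F, i1, i2, f, hf, hfin⟩ := h
  exact ⟨ι, F, i1, i2, f.comp g, hf.comp hg, fun x => hfin (g x)⟩

theorem SDF.of_pi {D : Type u} [Group D] {I : Type u} (E : I → Type u) [instE : ∀ i, Group (E i)]
    (hE : ∀ i, SDF (E i)) (e : D →* ((i : I) → E i)) (he : Function.Injective e)
    (hfin : ∀ x, {i | e x i ≠ 1}.Finite) : SDF D := by
  choose ι F i1 i2 f hf hff using hE
  refine ⟨Σ i, ι i, fun p => F p.1 p.2, fun p => i1 p.1 p.2, fun p => i2 p.1 p.2,
    { toFun := fun x p => f p.1 (e x p.1) p.2
      map_one' := ?_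
      map_mul' := ?_ }, ?_, ?_⟩
  · funext p
    simp only [map_one, Pi.one_apply]
  · intro x y
    funext p
    simp only [map_mul, Pi.mul_apply]
  · intro x y hxy
    apply he
    funext i
    apply hf i
    funext k
    exact congrFun hxy ⟨i, k⟩
  · intro x
    have : {p : Σ i, ι i | f p.1 (e x p.1) p.2 ≠ 1} ⊆
        ⋃ i ∈ {i | e x i ≠ 1}, (Sigma.mk i) '' {k | f i (e x i) k ≠ 1} := by
      rintro ⟨i, k⟩ h
      simp only [Set.mem_setOf_eq] at h
      simp only [Set.mem_iUnion]
      refine ⟨i, ?_, k, h, rfl⟩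
      intro h1
      apply h
      rw [h1, map_one, Pi.one_apply]
    exact ((hfin x).biUnion fun i _ => (hff i (e x i)).image _).subset this

/-- Every finite group is in the class. -/
theorem SDF.of_finite (D : Type u) [Group D] [Finite D] : SDF D :=
  ⟨PUnit, fun _ => D, fun _ => inferInstance, fun _ => inferInstance,
    { toFun := fun x _ => x, map_one' := rfl, map_mul' := fun _ _ => rfl },
    fun _ _ h => congrFun h PUnit.unit, fun _ => Set.toFinite _⟩

/-- Countable index sets. -/
theorem SDF.of_nat {D : Type u} [Group D]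
    (h : ∃ (F : ℕ → Type u) (_ : ∀ i, Group (F i)) (_ : ∀ i, Finite (F i))
      (f : D →* ((i : ℕ) → F i)), Function.Injective f ∧ ∀ x, {i : ℕ | f x i ≠ 1}.Finite) :
    SDF D := by
  obtain ⟨F, i1, i2, f, hf, hs⟩ := h
  refine ⟨ULift.{u} ℕ, fun i => F i.down, fun i => i1 i.down, fun i => i2 i.down,
    MonoidHom.mk' (fun x i => f x i.down) (fun x y => ?_), ?_, ?_⟩
  · funext i
    rw [map_mul]
    rfl
  · intro x y hxy
    apply hf
    funext i
    exact congrFun hxy ⟨i⟩
  · intro x
    exact (hs x).preimage (f := ULift.down) ULift.down_injective.injOn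

end Pool.Agent.FCU
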