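import Mathlib
import Pool.Agent.FCU.SDF

set_option autoImplicit false

namespace Pool.Agent.FCU

universe u

/-- A group with a well-ordered continuous chain of direct factors, each of which embeds in a
restricted direct product of finite groups, embeds in such a product itself. -/
theorem SDF.of_chain {D : Type u} [Group D] {I : Type u} [LinearOrder I] [WellFoundedLT I]
    (U : I → Subgroup D) (hmono : Monotone U) (f : I → D →* D)
    (hfL : ∀ i x, f i x = 1 ∨ ∃ j, j < i ∧ f i x ∈ U j)
    (hfix : ∀ i j x, j < i → x ∈ U j → f i x = x)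
    (hcomm : ∀ i x y, f i x = 1 → Commute x (f i y))
    (hcover : ∀ x, ∃ i, x ∈ U i) (hSDF : ∀ i, SDF (U i)) : SDF D := by
  classical
  have wf : WellFounded (fun a b : I => a < b) := wellFounded_lt
  set lam : D → I := fun x => wf.min {i | x ∈ U i} (hcover x) with hlam
  have lam_mem : ∀ x, x ∈ U (lam x) := fun x => wf.min_mem {i | x ∈ U i} (hcover x)
  have lam_le : ∀ x i, x ∈ U i → lam x ≤ i := fun x i hx =>
    not_lt.mp (wf.not_lt_min {i | x ∈ U i} hx)
  -- the complementary projection
  have hff : ∀ i x, f i (f i x) = f i x := by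
    intro i x
    rcases hfL i x with h | ⟨j, hj, h⟩
    · rw [h, map_one]
    · exact hfix i j _ hj h
  have hker : ∀ i x, f i ((f i x)⁻¹ * x) = 1 := by
    intro i x
    rw [map_mul, map_inv, hff, inv_mul_cancel]
  set g : I → D → D := fun i x => (f i x)⁻¹ * x with hg
  have g_mul : ∀ i x y, g i (x * y) = g i x * g i y := by
    intro i x y
    simp only [hg, map_mul, mul_inv_rev]
    have h1 : Commute ((f i x)⁻¹ * x) (f i y)⁻¹ := (hcomm i _ y (hker i x)).inv_right
    calc (f i y)⁻¹ * (f i x)⁻¹ * (x * y) = ((f i y)⁻¹ * ((f i x)⁻¹ * x)) * y := by group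
      _ = (((f i x)⁻¹ * x) * (f i y)⁻¹) * y := by rw [h1.eq]
      _ = (f i x)⁻¹ * x * ((f i y)⁻¹ * y) := by group
  have hdec : ∀ i x, i < lam x → lam (f (lam x) x) < lam x := by
    intro i x hi
    rcases hfL (lam x) x with h | ⟨j, hj, h⟩
    · rw [h]
      exact lt_of_le_of_lt (lam_le 1 i (U i).one_mem) hi
    · exact lt_of_le_of_lt (lam_le _ j h) hj
  obtain ⟨e, he⟩ : ∃ e : I → D → D, ∀ i x,
      e i x = if i < lam x then e i (f (lam x) x) else g i x := by
    refine ⟨fun i => (InvImage.wf lam wf).fix
      (fun x rec => if h : i < lam x then rec (f (lam x) x) (hdec i x h) else g i x), ?_⟩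
    intro i x
    refine (WellFounded.fix_eq _ _ _).trans ?_
    by_cases h : i < lam x
    · rw [dif_pos h, if_pos h]
    · rw [dif_neg h, if_neg h]
  have e_of_lt : ∀ i k x, i < k → x ∈ U k → e i x = e i (f k x) := by
    intro i k x hik hx
    rcases lt_or_eq_of_le (lam_le x k hx) with h | h
    · rw [hfix k (lam x) x h (lam_mem x)]
    · rw [he i x, if_pos (h ▸ hik), h]
  have e_of_mem : ∀ i x, x ∈ U i → e i x = g i x := by
    intro i x hx
    rw [he i x, if_neg (not_lt.mpr (lam_le x i hx))]
  have e_mul' : ∀ i k, ∀ x ∈ U k, ∀ y ∈ U k, e i (x * y) = e i x * e i y := by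
    intro i k
    induction k using wf.induction with
    | _ k ih =>
      intro x hx y hy
      rcases le_or_gt k i with hki | hik
      · rw [e_of_mem i _ (hmono hki ((U k).mul_mem hx hy)), e_of_mem i _ (hmono hki hx),
          e_of_mem i _ (hmono hki hy), g_mul]
      · rw [e_of_lt i k _ hik ((U k).mul_mem hx hy), e_of_lt i k _ hik hx, e_of_lt i k _ hik hy,
          map_mul]
        have key : ∀ x, ∃ j, j < k ∧ f k x ∈ U j := by
          intro x
          rcases hfL k x with h | h
          · exact ⟨i, hik, by rw [h]; exact (U i).one_mem⟩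
          · exact h
        obtain ⟨j1, hj1, h1⟩ := key x
        obtain ⟨j2, hj2, h2⟩ := key y
        exact ih (max j1 j2) (max_lt hj1 hj2) _ (hmono (le_max_left _ _) h1) _
          (hmono (le_max_right _ _) h2)
  have e_mul : ∀ i x y, e i (x * y) = e i x * e i y := by
    intro i x y
    exact e_mul' i (max (lam x) (lam y)) _ (hmono (le_max_left _ _) (lam_mem x)) _
      (hmono (le_max_right _ _) (lam_mem y))
  have e_one : ∀ i, e i 1 = 1 := by
    intro i
    have := e_mul i 1 1
    rw [mul_one] at this
    exact left_eq_mul.mp this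
  have e_range : ∀ k, ∀ i x, lam x = k → e i x ∈ U i := by
    intro k
    induction k using wf.induction with
    | _ k ih =>
      intro i x hx
      by_cases h : i < lam x
      · rw [he i x, if_pos h]
        exact ih _ (hx ▸ hdec i x h) i _ rfl
      · rw [he i x, if_neg h]
        have h' : lam x ≤ i := not_lt.mp h
        refine (U i).mul_mem ((U i).inv_mem ?_) (hmono h' (lam_mem x))
        rcases hfL i x with h1 | ⟨j, hj, h1⟩
        · rw [h1]; exact (U i).one_mem
        · exact hmono hj.le h1
  have e_fin : ∀ k, ∀ x, lam x = k → {i | e i x ≠ 1}.Finite := by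
    intro k
    induction k using wf.induction with
    | _ k ih =>
      intro x hx
      have hsub : {i | e i x ≠ 1} ⊆ {lam x} ∪ {i | e i (f (lam x) x) ≠ 1} := by
        intro i hi
        rcases lt_trichotomy i (lam x) with h | h | h
        · right
          change e i x ≠ 1 at hi
          change e i (f (lam x) x) ≠ 1
          rw [← e_of_lt i (lam x) x h (lam_mem x)]
          exact hi
        · left; exact h
        · exfalso
          apply hi
          rw [e_of_mem i x (hmono h.le (lam_mem x))]
          simp only [hg]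
          rw [hfix i (lam x) x h (lam_mem x), inv_mul_cancel]
      refine Set.Finite.subset (Set.Finite.union (Set.finite_singleton _) ?_) hsub
      rcases hfL (lam x) x with h | ⟨j, hj, h⟩
      · rw [h]
        convert Set.finite_empty
        ext i
        simp [e_one]
      · exact ih _ (hx ▸ lt_of_le_of_lt (lam_le _ j h) hj) _ rfl
  refine SDF.of_pi (fun i => U i) hSDF
    (MonoidHom.mk' (fun x i => (⟨e i x, e_range _ i x rfl⟩ : U i)) (fun x y => ?_)) ?_ ?_
  · funext i
    apply Subtype.ext
    exact e_mul i x y
  · rw [injective_iff_map_eq_one]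
    intro x hx
    have h1 : e (lam x) x = 1 := congrArg Subtype.val (congrFun hx (lam x))
    rw [e_of_mem _ x (lam_mem x)] at h1
    have h2 : f (lam x) x = x := by
      have : (f (lam x) x)⁻¹ * x = 1 := h1
      exact inv_mul_eq_one.mp this
    rcases hfL (lam x) x with h | ⟨j, hj, h⟩
    · rw [← h2, h]
    · rw [h2] at h
      exact absurd (lam_le x j h) (not_le.mpr hj)
  · intro x
    refine (e_fin _ x rfl).subset ?_
    intro i hi h1
    apply hi
    apply Subtype.ext
    exact h1

end Pool.Agent.FCU
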