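import Mathlib
import Pool.Agent.FCU.Chain

set_option autoImplicit false
set_option linter.style.haveILetI false

open Cardinal

namespace Pool.Agent.FCU

universe u

/-- A set is closed under the finitary operations `φ`. -/
def ClosedUnder {Ω : Type u} (φ : Finset Ω → Set Ω) (M : Set Ω) : Prop :=
  ∀ F : Finset Ω, (↑F : Set Ω) ⊆ M → φ F ⊆ M

/-- The closure of a set under the finitary operations `φ`. -/
def cl {Ω : Type u} (φ : Finset Ω → Set Ω) (X : Set Ω) : Set Ω := ⋂₀ {M | ClosedUnder φ M ∧ X ⊆ M}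

section
variable {Ω : Type u} (φ : Finset Ω → Set Ω)

theorem subset_cl (X : Set Ω) : X ⊆ cl φ X := fun _ hx _ hM => hM.2 hx

theorem cl_closed (X : Set Ω) : ClosedUnder φ (cl φ X) := by
  intro F hF x hx M hM
  exact hM.1 F (fun y hy => hF hy M hM) hx

theorem cl_min {X M : Set Ω} (hM : ClosedUnder φ M) (hX : X ⊆ M) : cl φ X ⊆ M :=
  fun _ hx => hx M ⟨hM, hX⟩

theorem cl_mono {X Y : Set Ω} (h : X ⊆ Y) : cl φ X ⊆ cl φ Y :=
  cl_min φ (cl_closed φ Y) (h.trans (subset_cl φ Y))

theorem cl_finitary {X : Set Ω} {x : Ω} (hx : x ∈ cl φ X) :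
    ∃ F : Finset Ω, (↑F : Set Ω) ⊆ X ∧ x ∈ cl φ (↑F : Set Ω) := by
  classical
  have h1 : cl φ X ⊆ {x | ∃ F : Finset Ω, (↑F : Set Ω) ⊆ X ∧ x ∈ cl φ (↑F : Set Ω)} := by
    apply cl_min
    · intro F hF y hy
      have h2 : ∀ z : Ω, ∃ Fz : Finset Ω, z ∈ F → ((↑Fz : Set Ω) ⊆ X ∧ z ∈ cl φ (↑Fz : Set Ω)) := by
        intro z
        by_cases hz : z ∈ F
        · obtain ⟨Fz, h⟩ := hF hz
          exact ⟨Fz, fun _ => h⟩
        · exact ⟨∅, fun h => absurd h hz⟩
      choose Fz hFz using h2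
      refine ⟨F.biUnion Fz, ?_, ?_⟩
      · intro w hw
        rw [Finset.mem_coe, Finset.mem_biUnion] at hw
        obtain ⟨z, hz, hwz⟩ := hw
        exact (hFz z hz).1 hwz
      · refine cl_closed φ _ F ?_ hy
        intro z hz
        refine cl_mono φ ?_ (hFz z hz).2
        intro w hw
        rw [Finset.mem_coe, Finset.mem_biUnion]
        exact ⟨z, hz, hw⟩
    · intro y hy
      exact ⟨{y}, by simpa using hy, subset_cl φ _ (by simp)⟩
  exact h1 hx

/-- One step of the closure process. -/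
def step (X : Set Ω) : Set Ω := X ∪ ⋃ F : Finset X, φ (F.map (Function.Embedding.subtype _))

theorem mk_step_le (hφ : ∀ F, (φ F).Countable) (X : Set Ω) {c : Cardinal} (hc : ℵ₀ ≤ c)
    (hX : #X ≤ c) : #(step φ X) ≤ c := by
  have h1 : #(Finset X) ≤ c := by
    rcases finite_or_infinite X with h | h
    · exact (Cardinal.mk_le_aleph0).trans hc
    · rw [Cardinal.mk_finset_of_infinite]
      exact hX
  have h2 : #(⋃ F : Finset X, φ (F.map (Function.Embedding.subtype _)) : Set Ω) ≤ c := by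
    refine (Cardinal.mk_iUnion_le _).trans ?_
    have h3 : (⨆ F : Finset X, #(φ (F.map (Function.Embedding.subtype _)))) ≤ ℵ₀ := by
      apply ciSup_le'
      intro F
      exact (hφ _).le_aleph0
    calc _ ≤ c * ℵ₀ := mul_le_mul' h1 h3
      _ ≤ c * c := mul_le_mul' le_rfl hc
      _ = c := Cardinal.mul_eq_self hc
  refine (Cardinal.mk_union_le _ _).trans ?_
  calc _ ≤ c + c := add_le_add hX h2
    _ = c := Cardinal.add_eq_self hc

theorem mk_cl_le (hφ : ∀ F, (φ F).Countable) (X : Set Ω) {c : Cardinal} (hc : ℵ₀ ≤ c)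
    (hX : #X ≤ c) : #(cl φ X) ≤ c := by
  classical
  set S : ℕ → Set Ω := fun n => (step φ)^[n] X with hS
  have hSsucc : ∀ n, S (n + 1) = step φ (S n) := fun n => Function.iterate_succ_apply' _ _ _
  have hScard : ∀ n, #(S n) ≤ c := by
    intro n
    induction n with
    | zero => exact hX
    | succ n ih =>
      rw [hSsucc]
      exact mk_step_le φ hφ _ hc ih
  have hSmono : Monotone S := by
    apply monotone_nat_of_le_succ
    intro n
    rw [hSsucc]
    exact Set.subset_union_left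
  have hclosed : ClosedUnder φ (⋃ n, S n) := by
    intro F hF
    obtain ⟨n, hn⟩ : ∃ n, (↑F : Set Ω) ⊆ S n := by
      have h2 : ∀ z : Ω, ∃ n, z ∈ F → z ∈ S n := by
        intro z
        by_cases hz : z ∈ F
        · obtain ⟨n, hn⟩ := Set.mem_iUnion.mp (hF hz)
          exact ⟨n, fun _ => hn⟩
        · exact ⟨0, fun h => absurd h hz⟩
      choose k hk using h2
      exact ⟨F.sup k, fun z hz => hSmono (Finset.le_sup (f := k) hz) (hk z hz)⟩
    refine Set.Subset.trans ?_ (Set.subset_iUnion S (n + 1))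
    rw [hSsucc]
    refine Set.Subset.trans ?_ Set.subset_union_right
    set F' : Finset (S n) := F.subtype (· ∈ S n) with hF'
    have h1 : F'.map (Function.Embedding.subtype _) = F := by
      rw [hF', Finset.subtype_map_of_mem]
      exact hn
    refine Set.Subset.trans ?_ (Set.subset_iUnion _ F')
    rw [h1]
  have h1 : cl φ X ⊆ ⋃ n, S n := cl_min φ hclosed (Set.subset_iUnion S 0)
  refine (Cardinal.mk_le_mk_of_subset h1).trans ?_
  have h4 : (⋃ n, S n) = ⋃ n : ULift.{u} ℕ, S n.down := by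
    ext x
    simp only [Set.mem_iUnion, ULift.exists]
  rw [h4]
  refine (Cardinal.mk_iUnion_le _).trans ?_
  have h3 : (⨆ n : ULift.{u} ℕ, #(S n.down)) ≤ c := ciSup_le' fun n => hScard n.down
  calc _ ≤ ℵ₀ * c := mul_le_mul' (by simp) h3
      _ ≤ c * c := mul_le_mul' hc le_rfl
      _ = c := Cardinal.mul_eq_self hc

end

end Pool.Agent.FCU
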