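import Mathlib
import Pool.Agent.FCU.Hall

set_option autoImplicit false
set_option linter.style.haveILetI false

namespace Pool.Agent.FCU

universe u

/-- The standing data: an FC-group `G` with a central subgroup isomorphic (through `τ`) to a
direct sum of finite cyclic groups and containing `[G,G] ∩ Z(G)`. -/
structure Setup (G : Type u) [Group G] (J : Type u) (n : J → ℕ) where
  τ : (Π₀ j, ZMod (n j)) → G
  τ_add : ∀ a b, τ (a + b) = τ a * τ b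
  τ_inj : Function.Injective τ
  τ_comm : ∀ a g, τ a * g = g * τ a
  mem_range : ∀ g, g ∈ commutator G → g ∈ Subgroup.center G → g ∈ Set.range τ
  fc : IsFC G
  npos : ∀ j, n j ≠ 0

namespace Setup

variable {G : Type u} [Group G] {J : Type u} {n : J → ℕ} (S : Setup G J n)

theorem τ_zero : S.τ 0 = 1 := by
  have h := S.τ_add 0 0
  rw [add_zero] at h
  exact left_eq_mul.mp h

theorem τ_neg (a : Π₀ j, ZMod (n j)) : S.τ (-a) = (S.τ a)⁻¹ := by
  apply eq_inv_of_mul_eq_one_left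
  rw [← S.τ_add, neg_add_cancel, S.τ_zero]

theorem τ_center (a : Π₀ j, ZMod (n j)) : S.τ a ∈ Subgroup.center G := by
  rw [Subgroup.mem_center_iff]
  intro g
  exact (S.τ_comm a g).symm

theorem conj_τ (t : Π₀ j, ZMod (n j)) (h y : G) :
    h * (S.τ t * y) * h⁻¹ = S.τ t * (h * y * h⁻¹) := by
  rw [← mul_assoc h, ← S.τ_comm t h]
  group

theorem τ_mul_τ (t s : Π₀ j, ZMod (n j)) (a b : G) :
    S.τ t * a * (S.τ s * b) = S.τ (t + s) * (a * b) := by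
  rw [S.τ_add]
  calc _ = S.τ t * (a * S.τ s) * b := by group
    _ = S.τ t * (S.τ s * a) * b := by rw [← S.τ_comm s a]
    _ = _ := by group

theorem τ_mul_inv (t : Π₀ j, ZMod (n j)) (a : G) : (S.τ t * a)⁻¹ = S.τ (-t) * a⁻¹ := by
  rw [mul_inv_rev, S.τ_neg, ← S.τ_neg, S.τ_comm]

theorem τ_τ_mul (t s : Π₀ j, ZMod (n j)) (a : G) : S.τ t * (S.τ s * a) = S.τ (t + s) * a := by
  rw [S.τ_add, mul_assoc]

/-- Class functions `G/T → T`. -/
def CF (ζ : G → Π₀ j, ZMod (n j)) : Prop :=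
  (∀ k g, ζ (k * g * k⁻¹) = ζ g) ∧ (∀ t g, ζ (S.τ t * g) = ζ g)

theorem CF.add {ζ ξ : G → Π₀ j, ZMod (n j)} (h1 : S.CF ζ) (h2 : S.CF ξ) : S.CF (ζ + ξ) :=
  ⟨fun k g => by rw [Pi.add_apply, Pi.add_apply, h1.1, h2.1],
    fun t g => by rw [Pi.add_apply, Pi.add_apply, h1.2, h2.2]⟩

theorem CF.neg {ζ : G → Π₀ j, ZMod (n j)} (h1 : S.CF ζ) : S.CF (-ζ) :=
  ⟨fun k g => by rw [Pi.neg_apply, Pi.neg_apply, h1.1],
    fun t g => by rw [Pi.neg_apply, Pi.neg_apply, h1.2]⟩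

theorem CF.zero : S.CF (0 : G → Π₀ j, ZMod (n j)) :=
  ⟨fun _ _ => rfl, fun _ _ => rfl⟩

theorem CF.comp {ζ : G → Π₀ j, ZMod (n j)} (h1 : S.CF ζ)
    (φ : (Π₀ j, ZMod (n j)) → (Π₀ j, ZMod (n j))) : S.CF (fun g => φ (ζ g)) :=
  ⟨fun k g => congrArg φ (h1.1 k g), fun t g => congrArg φ (h1.2 t g)⟩

/-- Maps that are locally of the form `y ↦ ζ(y) h y h⁻¹` with `ζ` a class function. -/
def Loc (x : G → G) : Prop :=
  ∀ Y : Finset G, ∃ (h : G) (ζ : G → Π₀ j, ZMod (n j)), S.CF ζ ∧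
    ∀ y ∈ Y, x y = S.τ (ζ y) * (h * y * h⁻¹)

variable {S}

theorem CF.conj_mul {ζ : G → Π₀ j, ZMod (n j)} (h1 : S.CF ζ) (t : Π₀ j, ZMod (n j)) (k g : G) :
    ζ (S.τ t * (k * g * k⁻¹)) = ζ g := by
  rw [h1.2, h1.1]

theorem Loc.smul {x : G → G} (hx : S.Loc x) (t : Π₀ j, ZMod (n j)) (y : G) :
    x (S.τ t * y) = S.τ t * x y := by
  classical
  obtain ⟨h, ζ, hζ, hY⟩ := hx {y, S.τ t * y}
  rw [hY y (by simp), hY (S.τ t * y) (by simp), hζ.2, S.conj_τ, S.τ_τ_mul, S.τ_τ_mul, add_comm]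

theorem Loc.conj {x : G → G} (hx : S.Loc x) (k y : G) :
    x (k * y * k⁻¹) = x k * x y * (x k)⁻¹ := by
  classical
  obtain ⟨h, ζ, hζ, hY⟩ := hx {k, y, k * y * k⁻¹}
  rw [hY y (by simp), hY k (by simp), hY (k * y * k⁻¹) (by simp), hζ.1, S.τ_mul_τ, S.τ_mul_inv,
    S.τ_mul_τ]
  congr 1
  · congr 1
    abel
  · group

theorem Loc.commute {x : G → G} (hx : S.Loc x) {a b : G} (hab : Commute a b) :
    Commute (x a) (x b) := by
  have h1 := hx.conj a b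
  have h2 : a * b * a⁻¹ = b := by rw [hab.eq]; group
  rw [h2] at h1
  have h3 : x b * x a = x a * x b := by
    nth_rewrite 1 [h1]
    group
  exact h3.symm

theorem Loc.mul {x : G → G} (hx : S.Loc x) (a b : G) :
    ∃ t, x (a * b) = S.τ t * (x a * x b) := by
  classical
  obtain ⟨h, ζ, hζ, hY⟩ := hx {a, b, a * b}
  refine ⟨ζ (a * b) - ζ a - ζ b, ?_⟩
  rw [hY a (by simp), hY b (by simp), hY (a * b) (by simp), S.τ_mul_τ, S.τ_τ_mul]
  congr 1
  · congr 1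
    abel
  · group

theorem Loc.exists_conj {x : G → G} (hx : S.Loc x) (y : G) :
    ∃ t h, x y = S.τ t * (h * y * h⁻¹) := by
  obtain ⟨h, ζ, hζ, hY⟩ := hx {y}
  exact ⟨ζ y, h, hY y (by simp)⟩

theorem Loc.disp_mem {x : G → G} (hx : S.Loc x) (y : G) (hc : x y * y⁻¹ ∈ Subgroup.center G) :
    ∃ t, x y = S.τ t * y := by
  obtain ⟨t, h, hy⟩ := hx.exists_conj y
  have h1 : h * y * h⁻¹ * y⁻¹ ∈ commutator G := by
    have := Subgroup.commutator_mem_commutator (Subgroup.mem_top h) (Subgroup.mem_top y)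
    rw [commutatorElement_def] at this
    exact this
  have h2 : h * y * h⁻¹ * y⁻¹ ∈ Subgroup.center G := by
    have : h * y * h⁻¹ * y⁻¹ = (S.τ t)⁻¹ * (x y * y⁻¹) := by rw [hy]; group
    rw [this]
    exact (Subgroup.center G).mul_mem ((Subgroup.center G).inv_mem (S.τ_center t)) hc
  obtain ⟨s, hs⟩ := S.mem_range _ h1 h2
  refine ⟨t + s, ?_⟩
  rw [S.τ_add, hs, hy]
  group

theorem Loc.injective {x : G → G} (hx : S.Loc x) : Function.Injective x := by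
  classical
  intro a b hab
  obtain ⟨h, ζ, hζ, hY⟩ := hx {a, b}
  rw [hY a (by simp), hY b (by simp)] at hab
  have h1 : ζ a = ζ b := by
    have h2 := hζ.conj_mul (ζ a) h a
    have h3 := hζ.conj_mul (ζ b) h b
    rw [hab, h3] at h2
    exact h2.symm
  rw [h1] at hab
  have h2 := mul_left_cancel hab
  simpa using h2

theorem Loc.comp {x y : G → G} (hx : S.Loc x) (hy : S.Loc y) : S.Loc (fun g => x (y g)) := by
  classical
  intro Y
  obtain ⟨h2, ζ2, hζ2, hY2⟩ := hy Y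
  obtain ⟨h1, ζ1, hζ1, hY1⟩ := hx (Y.image y)
  refine ⟨h1 * h2, ζ1 + ζ2, CF.add S hζ1 hζ2, ?_⟩
  intro a ha
  change x (y a) = _
  rw [hY1 (y a) (Finset.mem_image_of_mem _ ha), hY2 a ha, hζ1.conj_mul, Pi.add_apply, S.conj_τ,
    S.τ_τ_mul]
  congr 1
  group

theorem Loc.symm (x : Equiv.Perm G) (hx : S.Loc x) : S.Loc x.symm := by
  classical
  intro Y
  obtain ⟨h, ζ, hζ, hY⟩ := hx (Y.image x.symm)
  refine ⟨h⁻¹, -ζ, CF.neg S hζ, ?_⟩
  intro y hy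
  have h1 := hY (x.symm y) (Finset.mem_image_of_mem _ hy)
  rw [Equiv.apply_symm_apply] at h1
  have h2 : ζ y = ζ (x.symm y) := by
    nth_rewrite 1 [h1]
    rw [hζ.conj_mul]
  rw [Pi.neg_apply, h2, inv_inv]
  have h4 : h⁻¹ * (S.τ (ζ (x.symm y)) * (h * x.symm y * h⁻¹)) * h⁻¹⁻¹ =
      S.τ (ζ (x.symm y)) * x.symm y := by
    rw [S.conj_τ]
    congr 1
    group
  rw [← h1, inv_inv] at h4
  rw [h4, S.τ_τ_mul, neg_add_cancel, S.τ_zero, one_mul]

theorem loc_conj (k : G) : S.Loc (fun g => k * g * k⁻¹) := by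
  intro Y
  refine ⟨k, 0, CF.zero S, ?_⟩
  intro y _
  rw [Pi.zero_apply, S.τ_zero, one_mul]

theorem loc_cf {ζ : G → Π₀ j, ZMod (n j)} (hζ : S.CF ζ) : S.Loc (fun g => S.τ (ζ g) * g) := by
  intro Y
  refine ⟨1, ζ, hζ, ?_⟩
  intro y _
  group

end Setup

end Pool.Agent.FCU
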