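import Mathlib
import Pool.Agent.FCU.Loc

set_option autoImplicit false
set_option linter.style.haveILetI false

namespace Pool.Agent.FCU

universe u

theorem IsFC.subgroup {D : Type u} [Group D] (h : IsFC D) (E : Subgroup D) : IsFC E := by
  intro g
  have h1 := h g
  refine Set.Finite.of_finite_image (f := Subtype.val) (h1.subset ?_)
    Subtype.val_injective.injOn
  rintro _ ⟨_, ⟨k, rfl⟩, rfl⟩
  exact ⟨k, rfl⟩

namespace Setup

variable {G : Type u} [Group G] {J : Type u} {n : J → ℕ} (S : Setup G J n)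

/-- The group of locally inner (up to class functions) permutations of finite displacement. -/
def A : Subgroup (Equiv.Perm G) where
  carrier := {x | S.Loc x ∧ (Set.range fun g => x g * g⁻¹).Finite}
  one_mem' := by
    refine ⟨?_, ?_⟩
    · intro Y
      refine ⟨1, 0, CF.zero S, ?_⟩
      intro y _
      rw [Pi.zero_apply, S.τ_zero]
      simp
    · refine (Set.finite_singleton (1 : G)).subset ?_
      rintro _ ⟨g, rfl⟩
      simp
  mul_mem' := by
    rintro x y ⟨hx1, hx2⟩ ⟨hy1, hy2⟩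
    refine ⟨hx1.comp hy1, ?_⟩
    refine (Set.Finite.image2 (fun a b => a * b) hx2 hy2).subset ?_
    rintro _ ⟨g, rfl⟩
    refine ⟨x (y g) * (y g)⁻¹, ⟨y g, rfl⟩, y g * g⁻¹, ⟨g, rfl⟩, ?_⟩
    change x (y g) * (y g)⁻¹ * (y g * g⁻¹) = x (y g) * g⁻¹
    group
  inv_mem' := by
    rintro x ⟨hx1, hx2⟩
    refine ⟨Loc.symm x hx1, ?_⟩
    refine (hx2.image (fun a => a⁻¹)).subset ?_
    rintro _ ⟨g, rfl⟩
    refine ⟨x (x⁻¹ g) * (x⁻¹ g)⁻¹, ⟨x⁻¹ g, rfl⟩, ?_⟩
    change (x (x.symm g) * (x.symm g)⁻¹)⁻¹ = x.symm g * g⁻¹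
    rw [Equiv.apply_symm_apply]
    group

variable {S}

theorem mem_A {x : Equiv.Perm G} : x ∈ S.A ↔ S.Loc x ∧ (Set.range fun g => x g * g⁻¹).Finite :=
  Iff.rfl

theorem A_ext {x y : S.A} (h : ∀ g, (x : Equiv.Perm G) g = (y : Equiv.Perm G) g) : x = y :=
  Subtype.ext (Equiv.ext h)

variable (S)

/-- Inner automorphisms as elements of `A`. -/
def inn : G →* S.A where
  toFun g := ⟨(MulAut.conj g).toEquiv, loc_conj g, by
    have h1 := S.fc g⁻¹
    refine (h1.image (fun a => g * a)).subset ?_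
    rintro _ ⟨a, rfl⟩
    refine ⟨a * g⁻¹ * a⁻¹, ⟨a, rfl⟩, ?_⟩
    change g * (a * g⁻¹ * a⁻¹) = (g * a * g⁻¹) * a⁻¹
    group⟩
  map_one' := by
    apply A_ext
    intro g
    change 1 * g * 1⁻¹ = g
    group
  map_mul' x y := by
    apply A_ext
    intro g
    change (x * y) * g * (x * y)⁻¹ = x * (y * g * y⁻¹) * x⁻¹
    group

theorem inn_apply (k g : G) : (S.inn k : Equiv.Perm G) g = k * g * k⁻¹ := rfl

theorem inn_eq_one_iff (k : G) : S.inn k = 1 ↔ k ∈ Subgroup.center G := by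
  rw [Subgroup.mem_center_iff]
  constructor
  · intro h g
    have h1 : (S.inn k : Equiv.Perm G) g = g := by rw [h]; rfl
    rw [inn_apply] at h1
    have h2 : k * g = g * k := by
      calc k * g = (k * g * k⁻¹) * k := by group
        _ = g * k := by rw [h1]
    exact h2.symm
  · intro h
    apply A_ext
    intro g
    rw [inn_apply, ← h g]
    change g * k * k⁻¹ = g
    group

/-- The element of `A` given by a class function of finite range. -/
def cf (ζ : G → Π₀ j, ZMod (n j)) (hζ : S.CF ζ) (hf : (Set.range ζ).Finite) : S.A :=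
  ⟨{ toFun := fun g => S.τ (ζ g) * g
     invFun := fun g => S.τ (-ζ g) * g
     left_inv := fun g => by
      change S.τ (-ζ (S.τ (ζ g) * g)) * (S.τ (ζ g) * g) = g
      rw [hζ.2, S.τ_τ_mul, neg_add_cancel, S.τ_zero, one_mul]
     right_inv := fun g => by
      change S.τ (ζ (S.τ (-ζ g) * g)) * (S.τ (-ζ g) * g) = g
      rw [hζ.2, S.τ_τ_mul, add_neg_cancel, S.τ_zero, one_mul] },
    loc_cf hζ, by
      refine (hf.image S.τ).subset ?_
      rintro _ ⟨g, rfl⟩
      refine ⟨ζ g, ⟨g, rfl⟩, ?_⟩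
      change S.τ (ζ g) = S.τ (ζ g) * g * g⁻¹
      group⟩

theorem cf_apply (ζ : G → Π₀ j, ZMod (n j)) (hζ : S.CF ζ) (hf : (Set.range ζ).Finite) (g : G) :
    (S.cf ζ hζ hf : Equiv.Perm G) g = S.τ (ζ g) * g := rfl

variable {S}

theorem A_loc (x : S.A) : S.Loc (x : Equiv.Perm G) := x.2.1

theorem A_fin (x : S.A) : (Set.range fun g => (x : Equiv.Perm G) g * g⁻¹).Finite := x.2.2

/-- The conjugation formula: conjugates of `δ` differ from `δ` by an inner automorphism given by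
an element of the displacement set of `δ`. -/
theorem conj_formula (x δ : S.A) : ∃ h : G,
    x * δ * x⁻¹ = (S.inn ((δ : Equiv.Perm G) h * h⁻¹))⁻¹ * δ := by
  classical
  set d : G → G := fun h => (δ : Equiv.Perm G) h * h⁻¹ with hd
  by_contra hcon
  push Not at hcon
  have h1 : ∀ e : G, ∃ y : G, e ∈ Set.range d →
      ((x * δ * x⁻¹ : S.A) : Equiv.Perm G) y ≠ (((S.inn e)⁻¹ * δ : S.A) : Equiv.Perm G) y := by
    intro e
    by_cases he : e ∈ Set.range d
    · obtain ⟨h, rfl⟩ := he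
      by_contra hc
      push Not at hc
      exact hcon h (A_ext fun y => (hc y).2)
    · exact ⟨1, fun h => absurd h he⟩
  choose Y hY using h1
  have hfin : (Set.range d).Finite := A_fin δ
  set F : Finset G := hfin.toFinset.image Y with hF
  set X : Equiv.Perm G := (x : Equiv.Perm G) with hX
  set E : Equiv.Perm G := (δ : Equiv.Perm G) with hE
  obtain ⟨h, ζ, hζ, hW⟩ := A_loc x (F.image X.symm ∪ (F.image X.symm).image E)
  have hde : d h ∈ Set.range d := ⟨h, rfl⟩
  have hyF : Y (d h) ∈ F := Finset.mem_image_of_mem _ (hfin.mem_toFinset.mpr hde)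
  apply hY (d h) hde
  set y := Y (d h) with hy
  set w := X.symm y with hw
  have hw1 : w ∈ F.image X.symm := Finset.mem_image_of_mem _ hyF
  have e1 : y = S.τ (ζ w) * (h * w * h⁻¹) := by
    have := hW w (Finset.mem_union_left _ hw1)
    rw [← this, hw]
    exact (X.apply_symm_apply y).symm
  have e2 : X (E w) = S.τ (ζ (E w)) * (h * E w * h⁻¹) :=
    hW (E w) (Finset.mem_union_right _ (Finset.mem_image_of_mem _ hw1))
  have e3 : ζ (E w) = ζ w := by
    obtain ⟨t, k, hk⟩ := (A_loc δ).exists_conj w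
    change E w = _ at hk
    rw [hk, hζ.conj_mul]
  have e4 : E y = S.τ (ζ w) * (E h * E w * (E h)⁻¹) := by
    nth_rewrite 1 [e1]
    rw [(A_loc δ).smul, (A_loc δ).conj]
  rw [← map_inv]
  change X (E (X.symm y)) = (d h)⁻¹ * E y * (d h)⁻¹⁻¹
  rw [← hw, e2, e3, e4, S.conj_τ]
  congr 1
  simp only [hd]
  group

theorem A_fc : IsFC S.A := by
  intro δ
  have h1 := (A_fin δ).image (fun e => (S.inn e)⁻¹ * δ)
  refine h1.subset ?_
  rintro _ ⟨x, rfl⟩
  obtain ⟨h, hh⟩ := conj_formula x δ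
  exact ⟨_, ⟨h, rfl⟩, hh.symm⟩

theorem torsion_T (hn : ∀ j, n j ≠ 0) (t : Π₀ j, ZMod (n j)) : ∃ N, 0 < N ∧ N • t = 0 := by
  classical
  refine ⟨∏ j ∈ t.support, n j, Finset.prod_pos fun j _ => Nat.pos_of_ne_zero (hn j), ?_⟩
  ext j
  rw [DFinsupp.smul_apply, DFinsupp.zero_apply]
  by_cases hj : j ∈ t.support
  · obtain ⟨c, hc⟩ := Finset.dvd_prod_of_mem n hj
    rw [hc, mul_comm, mul_smul]
    have : (n j) • t j = 0 := by simp
    rw [this, smul_zero]
  · rw [DFinsupp.notMem_support_iff.mp hj, smul_zero]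

theorem A_torsion (δ : S.A) : ∃ m, 0 < m ∧ δ ^ m = 1 := by
  classical
  obtain ⟨m, hm, hc⟩ := A_fc.exists_pow_mem_center δ
  set ε := δ ^ m with hε
  rw [Subgroup.mem_center_iff] at hc
  have h1 : ∀ k, (ε : Equiv.Perm G) k * k⁻¹ ∈ Subgroup.center G := by
    intro k
    rw [Subgroup.mem_center_iff]
    intro g
    obtain ⟨y, hy⟩ := (ε : Equiv.Perm G).surjective (k⁻¹ * g * k)
    have h2 : ((S.inn k * ε : S.A) : Equiv.Perm G) y = ((ε * S.inn k : S.A) : Equiv.Perm G) y := by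
      rw [hc (S.inn k)]
    change k * (ε : Equiv.Perm G) y * k⁻¹ = (ε : Equiv.Perm G) (k * y * k⁻¹) at h2
    rw [(A_loc ε).conj, hy] at h2
    calc g * ((ε : Equiv.Perm G) k * k⁻¹)
        = (k * (k⁻¹ * g * k) * k⁻¹) * ((ε : Equiv.Perm G) k * k⁻¹) := by group
      _ = ((ε : Equiv.Perm G) k * (k⁻¹ * g * k) * ((ε : Equiv.Perm G) k)⁻¹) *
          ((ε : Equiv.Perm G) k * k⁻¹) := by rw [h2]
      _ = _ := by group
  have h2 : ∀ k, ∃ t, (ε : Equiv.Perm G) k = S.τ t * k := fun k => (A_loc ε).disp_mem k (h1 k)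
  choose ζ hζ using h2
  have h3 : (Set.range ζ).Finite := by
    refine Set.Finite.of_finite_image (f := S.τ) ((A_fin ε).subset ?_) S.τ_inj.injOn
    rintro _ ⟨_, ⟨k, rfl⟩, rfl⟩
    refine ⟨k, ?_⟩
    change (ε : Equiv.Perm G) k * k⁻¹ = S.τ (ζ k)
    rw [hζ k]
    group
  have h4 : ∀ N : ℕ, ∀ k, ((ε ^ N : S.A) : Equiv.Perm G) k = S.τ (N • ζ k) * k := by
    intro N
    induction N with
    | zero =>
      intro k
      rw [zero_smul, S.τ_zero, one_mul, pow_zero]
      rfl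
    | succ N ih =>
      intro k
      rw [pow_succ]
      change ((ε ^ N : S.A) : Equiv.Perm G) ((ε : Equiv.Perm G) k) = _
      rw [hζ k, (A_loc (ε ^ N)).smul, ih, S.τ_τ_mul, succ_nsmul, add_comm]
  choose N hN1 hN2 using torsion_T S.npos
  refine ⟨m * ∏ t ∈ h3.toFinset, N t, Nat.mul_pos hm (Finset.prod_pos fun t _ => hN1 t), ?_⟩
  rw [pow_mul, ← hε]
  apply A_ext
  intro k
  rw [h4]
  have h5 : ζ k ∈ h3.toFinset := h3.mem_toFinset.mpr ⟨k, rfl⟩
  obtain ⟨c, hc⟩ := Finset.dvd_prod_of_mem N h5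
  rw [hc, mul_comm, mul_smul, hN2, smul_zero, S.τ_zero, one_mul]
  rfl

theorem A_rf (x : S.A) (hx : x ≠ 1) : ∃ H : Subgroup S.A, H.FiniteIndex ∧ x ∉ H := by
  classical
  have h1 : ∃ g, (x : Equiv.Perm G) g ≠ g := by
    by_contra hcon
    push Not at hcon
    exact hx (A_ext hcon)
  obtain ⟨g, hg⟩ := h1
  obtain ⟨J₀, hJ₀⟩ : ∃ J₀ : Finset J, ∀ t, (x : Equiv.Perm G) g = S.τ t * g →
      t.support ⊆ J₀ := by
    by_cases h : ∃ t, (x : Equiv.Perm G) g = S.τ t * g
    · obtain ⟨t, ht⟩ := h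
      refine ⟨t.support, ?_⟩
      intro t' ht'
      rw [ht] at ht'
      have := S.τ_inj (mul_right_cancel ht')
      rw [this]
    · exact ⟨∅, fun t ht => absurd ⟨t, ht⟩ h⟩
  refine ⟨{ carrier := {y | ∃ t : Π₀ j, ZMod (n j), (∀ j ∈ J₀, t j = 0) ∧
              (y : Equiv.Perm G) g = S.τ t * g}
            one_mem' := ⟨0, fun _ _ => rfl, by rw [S.τ_zero, one_mul]; rfl⟩
            mul_mem' := ?_
            inv_mem' := ?_ }, ?_, ?_⟩
  · rintro y z ⟨t, ht, hty⟩ ⟨s, hs, hsz⟩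
    refine ⟨s + t, fun j hj => by rw [DFinsupp.add_apply, ht j hj, hs j hj, add_zero], ?_⟩
    change (y : Equiv.Perm G) ((z : Equiv.Perm G) g) = _
    rw [hsz, (A_loc y).smul, hty, S.τ_τ_mul]
  · rintro y ⟨t, ht, hty⟩
    refine ⟨-t, fun j hj => by rw [DFinsupp.neg_apply, ht j hj, neg_zero], ?_⟩
    apply (y : Equiv.Perm G).injective
    change (y : Equiv.Perm G) ((y : Equiv.Perm G).symm g) = _
    rw [Equiv.apply_symm_apply, (A_loc y).smul, hty, S.τ_τ_mul, neg_add_cancel, S.τ_zero, one_mul]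
  · have h2 : ∀ y : S.A, ∃ t h, (y : Equiv.Perm G) g = S.τ t * (h * g * h⁻¹) :=
      fun y => (A_loc y).exists_conj g
    choose t h hth using h2
    haveI : ∀ j, NeZero (n j) := fun j => ⟨S.npos j⟩
    refine finiteIndex_of_finite_range _
      (fun y => ((h y) * g * (h y)⁻¹, fun j : J₀ => t y j)) ?_ ?_
    · refine Set.Finite.subset (Set.Finite.prod (S.fc g) (Set.finite_univ)) ?_
      rintro _ ⟨y, rfl⟩
      exact ⟨⟨h y, rfl⟩, Set.mem_univ _⟩
    · intro y z hyz
      have e1 : (h y) * g * (h y)⁻¹ = (h z) * g * (h z)⁻¹ := congrArg Prod.fst hyz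
      have e2 : ∀ j : J₀, t y j = t z j := fun j => congrFun (congrArg Prod.snd hyz) j
      refine ⟨t z - t y, ?_, ?_⟩
      · intro j hj
        rw [DFinsupp.sub_apply, e2 ⟨j, hj⟩, sub_self]
      · apply (y : Equiv.Perm G).injective
        change (y : Equiv.Perm G) ((y : Equiv.Perm G).symm ((z : Equiv.Perm G) g)) = _
        rw [Equiv.apply_symm_apply, (A_loc y).smul, hth y, hth z, e1, S.τ_τ_mul]
        congr 2
        abel
  · rintro ⟨t, ht, htx⟩
    have h3 := hJ₀ t htx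
    have h4 : t = 0 := by
      ext j
      by_cases hj : j ∈ J₀
      · exact ht j hj
      · exact DFinsupp.notMem_support_iff.mp (fun h => hj (h3 h))
    rw [h4, S.τ_zero, one_mul] at htx
    exact hg htx

/-- Countable subgroups of `A` embed in restricted direct products of finite groups. -/
theorem sdf_countable_subgroup (D : Subgroup S.A) [Countable D] : SDF D := by
  refine SDF.of_countable D (A_fc.subgroup D) ?_ ?_
  · intro g
    obtain ⟨m, hm, h⟩ := A_torsion (g : S.A)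
    exact ⟨m, hm, Subtype.ext (by simpa using h)⟩
  · intro g hg
    obtain ⟨H, hH1, hH2⟩ := A_rf (g : S.A) (fun h => hg (Subtype.ext h))
    refine ⟨H.subgroupOf D, inferInstance, ?_⟩
    rw [Subgroup.mem_subgroupOf]
    exact hH2

end Setup

end Pool.Agent.FCU
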