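import Mathlib
import Pool.Agent.FCU.GroupA

set_option autoImplicit false
set_option linter.style.haveILetI false

open Filter

namespace Pool.Agent.FCU

universe u

namespace Setup

variable {G : Type u} [Group G] {J : Type u} {n : J → ℕ} {S : Setup G J n}

theorem Loc.surjective {x : G → G} (hx : S.Loc x) : Function.Surjective x := by
  classical
  intro g
  obtain ⟨h, ζ, hζ, hY⟩ := hx (S.fc g).toFinset
  have h1 : h⁻¹ * g * h⁻¹⁻¹ ∈ (S.fc g).toFinset := (S.fc g).mem_toFinset.mpr ⟨h⁻¹, rfl⟩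
  have h2 := hY _ h1
  have h3 : h * (h⁻¹ * g * h⁻¹⁻¹) * h⁻¹ = g := by group
  rw [h3] at h2
  refine ⟨S.τ (-ζ (h⁻¹ * g * h⁻¹⁻¹)) * (h⁻¹ * g * h⁻¹⁻¹), ?_⟩
  rw [hx.smul, h2, S.τ_τ_mul, neg_add_cancel, S.τ_zero, one_mul]

theorem Loc.bijective {x : G → G} (hx : S.Loc x) : Function.Bijective x :=
  ⟨hx.injective, hx.surjective⟩

theorem finite_support_subset (hn : ∀ j, n j ≠ 0) [DecidableEq J] (J₀ : Finset J) :
    {t : Π₀ j, ZMod (n j) | ∀ j, j ∉ J₀ → t j = 0}.Finite := by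
  haveI : ∀ j, NeZero (n j) := fun j => ⟨hn j⟩
  refine Set.Finite.of_injOn (f := fun t (j : J₀) => t j) (t := Set.univ) (fun _ _ => Set.mem_univ _)
    ?_ Set.finite_univ
  intro t ht s hs hts
  ext j
  by_cases hj : j ∈ J₀
  · exact congrFun hts ⟨j, hj⟩
  · rw [ht j hj, hs j hj]

variable (S) in
/-- The local condition on a finite set `Y`. -/
def LocalAt (Y₀ : Finset G) (P : Finset (G × G)) (J₀ : Finset J) (Y : Finset G) : Prop :=
  ∃ (h : G) (ζ : G → Π₀ j, ZMod (n j)), S.CF ζ ∧ ∀ p ∈ P, ∀ g ∈ Y,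
    (∀ y ∈ Y₀, Commute (p.1⁻¹ * g) y) →
      ∃ t : Π₀ j, ZMod (n j), (∀ j, j ∉ J₀ → t j = 0) ∧
        S.τ (ζ g) * (h * g * h⁻¹) = S.τ t * (p.2 * g)

variable (S) in
/-- The global condition on an element of `A`. -/
def GlobalAt (Y₀ : Finset G) (P : Finset (G × G)) (J₀ : Finset J) (δ : S.A) : Prop :=
  ∀ p ∈ P, ∀ g, (∀ y ∈ Y₀, Commute (p.1⁻¹ * g) y) →
      ∃ t : Π₀ j, ZMod (n j), (∀ j, j ∉ J₀ → t j = 0) ∧
        (δ : Equiv.Perm G) g = S.τ t * (p.2 * g)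

theorem compactness (Y₀ : Finset G) (P : Finset (G × G)) (J₀ : Finset J)
    (hcov : ∀ g, ∃ p ∈ P, ∀ y ∈ Y₀, Commute (p.1⁻¹ * g) y)
    (hloc : ∀ Y, S.LocalAt Y₀ P J₀ Y) : ∃ δ, S.GlobalAt Y₀ P J₀ δ := by
  classical
  choose h ζ hζ hY using hloc
  set v : Finset G → G → G := fun Y g => S.τ (ζ Y g) * (h Y * g * (h Y)⁻¹) with hv
  let U : Ultrafilter (Finset G) := Ultrafilter.of atTop
  have hU : ∀ g : G, ∀ᶠ Y in (U : Filter (Finset G)), g ∈ Y := by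
    intro g
    have h1 : ∀ᶠ Y in (atTop : Filter (Finset G)), {g} ≤ Y := eventually_ge_atTop {g}
    have h2 := (Ultrafilter.of_le (atTop : Filter (Finset G))) h1
    refine Filter.mem_of_superset h2 ?_
    intro Y hY
    exact hY (Finset.mem_singleton_self g)
  have hTfin := finite_support_subset S.npos J₀
  have hlim : ∀ g : G, ∃ w : G, ∀ᶠ Y in (U : Filter (Finset G)), v Y g = w := by
    intro g
    set V : Set G := ⋃ p ∈ (↑P : Set (G × G)), (fun t => S.τ t * (p.2 * g)) ''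
      {t : Π₀ j, ZMod (n j) | ∀ j, j ∉ J₀ → t j = 0} with hV
    have hVfin : V.Finite := P.finite_toSet.biUnion fun p _ => hTfin.image _
    have h1 : ∀ᶠ Y in (U : Filter (Finset G)), v Y g ∈ V := by
      filter_upwards [hU g] with Y hgY
      obtain ⟨p, hp, hpc⟩ := hcov g
      obtain ⟨t, ht, hte⟩ := hY Y p hp g hgY hpc
      simp only [hV, Set.mem_iUnion]
      exact ⟨p, hp, t, ht, hte.symm⟩
    have h2 : (⋃ w ∈ V, {Y | v Y g = w}) ∈ U := by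
      refine Filter.mem_of_superset h1 ?_
      intro Y hYV
      simp only [Set.mem_iUnion]
      exact ⟨v Y g, hYV, rfl⟩
    rw [Ultrafilter.finite_biUnion_mem_iff hVfin] at h2
    obtain ⟨w, _, hw⟩ := h2
    exact ⟨w, hw⟩
  choose δ hδ using hlim
  have hfinite : ∀ Y' : Finset G, ∃ Y : Finset G, Y' ⊆ Y ∧ ∀ g ∈ Y', v Y g = δ g := by
    intro Y'
    have h1 : ∀ᶠ Y in (U : Filter (Finset G)), ∀ g ∈ Y', (g ∈ Y ∧ v Y g = δ g) := by
      rw [Filter.eventually_all_finset]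
      intro g _
      exact (hU g).and (hδ g)
    obtain ⟨Y, hYY⟩ := h1.exists
    exact ⟨Y, fun g hg => (hYY g hg).1, fun g hg => (hYY g hg).2⟩
  have hLoc : S.Loc δ := by
    intro Y'
    obtain ⟨Y, -, hYY⟩ := hfinite Y'
    exact ⟨h Y, ζ Y, hζ Y, fun y hy => (hYY y hy).symm⟩
  have hglob : ∀ p ∈ P, ∀ g, (∀ y ∈ Y₀, Commute (p.1⁻¹ * g) y) →
      ∃ t : Π₀ j, ZMod (n j), (∀ j, j ∉ J₀ → t j = 0) ∧ δ g = S.τ t * (p.2 * g) := by
    intro p hp g hg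
    obtain ⟨Y, hYsub, hYY⟩ := hfinite {g}
    obtain ⟨t, ht, hte⟩ := hY Y p hp g (hYsub (Finset.mem_singleton_self g)) hg
    exact ⟨t, ht, by rw [← hYY g (Finset.mem_singleton_self g)]; exact hte⟩
  refine ⟨⟨Equiv.ofBijective δ hLoc.bijective, hLoc, ?_⟩, hglob⟩
  have hfin2 : (⋃ p ∈ (↑P : Set (G × G)), (fun t => S.τ t * p.2) ''
      {t : Π₀ j, ZMod (n j) | ∀ j, j ∉ J₀ → t j = 0}).Finite :=
    P.finite_toSet.biUnion fun p _ => hTfin.image _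
  refine hfin2.subset ?_
  rintro _ ⟨g, rfl⟩
  obtain ⟨p, hp, hpc⟩ := hcov g
  obtain ⟨t, ht, hte⟩ := hglob p hp g hpc
  simp only [Set.mem_iUnion]
  refine ⟨p, hp, t, ht, ?_⟩
  change S.τ t * p.2 = δ g * g⁻¹
  rw [hte]
  group

end Setup

end Pool.Agent.FCU
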