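import Mathlib
import Pool.Agent.FCU.Closure

set_option autoImplicit false
set_option linter.style.haveILetI false

open Cardinal

namespace Pool.Agent.FCU

universe u

theorem SDF.of_closure {A Ω : Type u} [Group A] (φ : Finset Ω → Set Ω) (hφ : ∀ F, (φ F).Countable)
    (ι : A → Ω) (Δ : Set Ω → Subgroup A) (hΔ : ∀ M, ClosedUnder φ M → ∀ x, x ∈ Δ M ↔ ι x ∈ M)
    (hret : ∀ M, ClosedUnder φ M → ∃ f : A →* A, (∀ x, f x ∈ Δ M) ∧ (∀ x ∈ Δ M, f x = x) ∧
      (∀ x y, f x = 1 → Commute x (f y)))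
    (hbase : ∀ M, ClosedUnder φ M → M.Countable → SDF (Δ M)) :
    ∀ M, ClosedUnder φ M → SDF (Δ M) := by
  classical
  suffices h : ∀ c : Cardinal.{u}, ∀ M : Set Ω, ClosedUnder φ M → #M = c → SDF (Δ M) from
    fun M hM => h _ M hM rfl
  intro c
  induction c using WellFoundedLT.induction with
  | _ c ih =>
  intro M hM hc
  rcases le_or_gt (#M) ℵ₀ with hM0 | hM0
  · exact hbase M hM (Cardinal.le_aleph0_iff_set_countable.mp hM0)
  obtain ⟨lo, wf, hord⟩ := Cardinal.exists_ord_eq_type_lt M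
  choose ret hret1 hret2 hret3 using hret
  set seg : M → Set Ω := fun i => Subtype.val '' Set.Iio i with hseg
  set segle : M → Set Ω := fun i => Subtype.val '' Set.Iic i with hsegle
  have hsegM : ∀ i, cl φ (seg i) ⊆ M := fun i => cl_min φ hM (by
    rintro _ ⟨m, -, rfl⟩; exact m.2)
  have hsegleM : ∀ i, cl φ (segle i) ⊆ M := fun i => cl_min φ hM (by
    rintro _ ⟨m, -, rfl⟩; exact m.2)
  have hle_mono : ∀ M₁ M₂, ClosedUnder φ M₁ → ClosedUnder φ M₂ → M₁ ⊆ M₂ → Δ M₁ ≤ Δ M₂ := by
    intro M₁ M₂ h1 h2 h12 x hx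
    rw [hΔ M₂ h2]
    exact h12 ((hΔ M₁ h1 x).mp hx)
  have hcard : ∀ i, #(cl φ (segle i)) < c := by
    intro i
    have h1 : #(segle i) < c := by
      refine lt_of_le_of_lt Cardinal.mk_image_le ?_
      have h2 : (Set.Iic i) ⊆ Set.Iio i ∪ {i} := by
        intro j hj
        rcases lt_or_eq_of_le (show j ≤ i from hj) with h | h
        · left; exact h
        · right; exact h
      refine lt_of_le_of_lt (Cardinal.mk_le_mk_of_subset h2) ?_
      refine lt_of_le_of_lt (Cardinal.mk_union_le _ _) ?_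
      rw [← hc]
      apply Cardinal.add_lt_of_lt hM0.le
      · exact Cardinal.mk_Iio_lt i hord
      · rw [Cardinal.mk_singleton]
        exact lt_of_lt_of_le Cardinal.one_lt_aleph0 hM0.le
    have h2 : #(cl φ (segle i)) ≤ max ℵ₀ #(segle i) :=
      mk_cl_le φ hφ _ (le_max_left _ _) (le_max_right _ _)
    exact lt_of_le_of_lt h2 (max_lt (hc ▸ hM0) h1)
  set fr : M → (Δ M →* Δ M) := fun i =>
    if ∃ j, j < i then
      ((ret (cl φ (seg i)) (cl_closed φ _)).comp (Δ M).subtype).codRestrict (Δ M)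
        (fun x => hle_mono _ _ (cl_closed φ _) hM (hsegM i) (hret1 _ _ _))
    else 1 with hfr
  have hbound : ∀ i : M, (∃ j, j < i) → ∀ F : Finset Ω, (↑F : Set Ω) ⊆ seg i →
      ∃ j, j < i ∧ (↑F : Set Ω) ⊆ segle j := by
    intro i hi F
    induction F using Finset.induction with
    | empty =>
      intro _
      obtain ⟨j, hj⟩ := hi
      exact ⟨j, hj, by simp⟩
    | insert a s _ ihF =>
      intro hF
      obtain ⟨j, hj, hjs⟩ := ihF (by
        intro x hx
        apply hF
        rw [Finset.coe_insert]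
        right; exact hx)
      obtain ⟨m, hm, hma⟩ := hF (show a ∈ _ by rw [Finset.coe_insert]; left; rfl)
      refine ⟨max j m, max_lt hj hm, ?_⟩
      intro x hx
      rw [Finset.coe_insert] at hx
      rcases hx with rfl | hx
      · exact ⟨m, le_max_right _ _, hma⟩
      · obtain ⟨y, hy, hyx⟩ := hjs hx
        exact ⟨y, le_trans hy (le_max_left _ _), hyx⟩
  refine SDF.of_chain (I := M) (fun i => (Δ (cl φ (segle i))).subgroupOf (Δ M)) ?_ fr ?_ ?_ ?_ ?_ ?_
  · intro i j hij x hx
    rw [Subgroup.mem_subgroupOf] at hx ⊢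
    refine hle_mono _ _ (cl_closed φ _) (cl_closed φ _) (cl_mono φ ?_) hx
    exact Set.image_mono (Set.Iic_subset_Iic.mpr hij)
  · intro i x
    by_cases hi : ∃ j, j < i
    · right
      have h1 : ((fr i x : Δ M) : A) = ret (cl φ (seg i)) (cl_closed φ _) x := by
        simp only [hfr, if_pos hi]
        rfl
      have h2 : ι (fr i x : Δ M) ∈ cl φ (seg i) := by
        rw [h1, ← hΔ _ (cl_closed φ _)]
        exact hret1 _ _ _
      obtain ⟨F, hF, hF2⟩ := cl_finitary φ h2
      obtain ⟨j, hj, hjF⟩ := hbound i hi F hF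
      refine ⟨j, hj, ?_⟩
      rw [Subgroup.mem_subgroupOf, hΔ _ (cl_closed φ _)]
      exact cl_mono φ hjF hF2
    · left
      simp only [hfr, if_neg hi]
      rfl
  · intro i j x hj hx
    have hi : ∃ j, j < i := ⟨j, hj⟩
    apply Subtype.ext
    have h1 : ((fr i x : Δ M) : A) = ret (cl φ (seg i)) (cl_closed φ _) x := by
      simp only [hfr, if_pos hi]
      rfl
    rw [h1]
    apply hret2
    rw [Subgroup.mem_subgroupOf] at hx
    refine hle_mono _ _ (cl_closed φ _) (cl_closed φ _) (cl_mono φ ?_) hx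
    apply Set.image_mono
    intro k hk
    exact lt_of_le_of_lt hk hj
  · intro i x y hx
    by_cases hi : ∃ j, j < i
    · have h1 : ∀ z, ((fr i z : Δ M) : A) = ret (cl φ (seg i)) (cl_closed φ _) z := by
        intro z
        simp only [hfr, if_pos hi]
        rfl
      have h2 : ret (cl φ (seg i)) (cl_closed φ _) (x : A) = 1 := by
        rw [← h1 x, hx]
        rfl
      have h3 := hret3 _ (cl_closed φ (seg i)) _ (y : A) h2
      apply Subtype.ext
      have h4 : (x : A) * ((fr i y : Δ M) : A) = ((fr i y : Δ M) : A) * x := by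
        rw [h1 y]
        exact h3
      exact h4
    · simp only [hfr, if_neg hi]
      exact Commute.one_right _
  · intro x
    have hx : ι (x : A) ∈ M := (hΔ M hM _).mp x.2
    refine ⟨⟨ι (x : A), hx⟩, ?_⟩
    rw [Subgroup.mem_subgroupOf, hΔ _ (cl_closed φ _)]
    exact subset_cl φ _ ⟨⟨ι (x : A), hx⟩, le_refl (⟨ι (x : A), hx⟩ : M), rfl⟩
  · intro i
    have h1 := ih _ (hcard i) _ (cl_closed φ (segle i)) rfl
    refine h1.of_injective (D := (Δ (cl φ (segle i))).subgroupOf (Δ M))
      (((Δ M).subtype.comp (Subgroup.subtype _)).codRestrict _ (fun x => ?_)) ?_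
    · exact x.2
    · intro x y hxy
      apply Subtype.ext
      apply Subtype.ext
      exact congrArg (Subtype.val : ↥(Δ (cl φ (segle i))) → A) hxy

end Pool.Agent.FCU
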