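import Mathlib
import Pool.Agent.FCU.Compact
import Pool.Agent.FCU.Finitary

set_option autoImplicit false
set_option linter.style.haveILetI false
set_option linter.unusedSectionVars false

namespace Pool.Agent.FCU

universe u

namespace Setup

variable {G : Type u} [Group G] {J : Type u} [DecidableEq J] {n : J → ℕ} (S : Setup G J n)

/-- The universe in which the closing-off takes place. -/
abbrev Om : Type u := G ⊕ (S.A ⊕ J)

/-- Embedding of `G`. -/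
def iG : G → S.Om := Sum.inl
/-- Embedding of `A`. -/
def iA : S.A → S.Om := fun δ => Sum.inr (Sum.inl δ)
/-- Embedding of `J`. -/
def iJ : J → S.Om := fun j => Sum.inr (Sum.inr j)

theorem iG_inj : Function.Injective S.iG := Sum.inl_injective
theorem iA_inj : Function.Injective S.iA := fun _ _ h => Sum.inl_injective (Sum.inr_injective h)
theorem iJ_inj : Function.Injective S.iJ := fun _ _ h => Sum.inr_injective (Sum.inr_injective h)

variable {S}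

/-- Postcomposition of one coordinate of a class function with a map. -/
theorem CF.single_comp {ζ : G → Π₀ j, ZMod (n j)} (hζ : S.CF ζ) (j : J)
    (φ : ZMod (n j) → ZMod (n j)) :
    S.CF (fun g => (DFinsupp.single j (φ (ζ g j)) : Π₀ j, ZMod (n j))) :=
  CF.comp S hζ (fun t => DFinsupp.single j (φ (t j)))

theorem range_single_comp {ζ : G → Π₀ j, ZMod (n j)} (hf : (Set.range ζ).Finite) (j : J)
    (φ : ZMod (n j) → ZMod (n j)) :
    (Set.range (fun g => (DFinsupp.single j (φ (ζ g j)) : Π₀ j, ZMod (n j)))).Finite := by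
  refine (hf.image (fun t => (DFinsupp.single j (φ (t j)) : Π₀ j, ZMod (n j)))).subset ?_
  rintro _ ⟨g, rfl⟩
  exact ⟨ζ g, ⟨g, rfl⟩, rfl⟩

theorem cf_ext {ζ ξ : G → Π₀ j, ZMod (n j)} {hζ hf hξ hf'}
    (h : S.cf ζ hζ hf = S.cf ξ hξ hf') : ζ = ξ := by
  funext g
  have h1 : (S.cf ζ hζ hf : Equiv.Perm G) g = (S.cf ξ hξ hf' : Equiv.Perm G) g := by rw [h]
  rw [cf_apply, cf_apply] at h1
  exact S.τ_inj (mul_right_cancel h1)

variable (S)

/-- The closure properties of a set `M` that are needed for the splitting. -/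
structure Good (M : Set S.Om) : Prop where
  g_one : S.iG 1 ∈ M
  g_mul : ∀ a b, S.iG a ∈ M → S.iG b ∈ M → S.iG (a * b) ∈ M
  g_inv : ∀ a, S.iG a ∈ M → S.iG a⁻¹ ∈ M
  g_conj : ∀ a, S.iG a ∈ M → ∀ k : G, S.iG (k * a * k⁻¹) ∈ M
  g_center : ∀ a, S.iG a ∈ M → a ∉ Subgroup.center G → ∃ b, S.iG b ∈ M ∧ a * b ≠ b * a
  g_trans : ∀ Y : Finset G, (∀ y ∈ Y, S.iG y ∈ M) →
    ∃ R : Finset G, (∀ r ∈ R, S.iG r ∈ M) ∧ ∀ g, ∃ r ∈ R, ∀ y ∈ Y, Commute (r⁻¹ * g) y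
  a_one : S.iA 1 ∈ M
  a_mul : ∀ a b, S.iA a ∈ M → S.iA b ∈ M → S.iA (a * b) ∈ M
  a_inv : ∀ a, S.iA a ∈ M → S.iA a⁻¹ ∈ M
  a_disp : ∀ δ, S.iA δ ∈ M → ∀ g : G, S.iG ((δ : Equiv.Perm G) g * g⁻¹) ∈ M
  a_T : ∀ δ, S.iA δ ∈ M → (∀ g, S.iG g ∈ M → ∃ t, (δ : Equiv.Perm G) g = S.τ t * g) →
    ∀ g, ∃ t, (δ : Equiv.Perm G) g = S.τ t * g
  a_faith : ∀ δ, S.iA δ ∈ M → (∀ g, S.iG g ∈ M → (δ : Equiv.Perm G) g = g) → δ = 1
  a_comp : ∀ δ, S.iA δ ∈ M → ∀ ζ hζ hf, S.cf ζ hζ hf = δ → ∀ j (φ : ZMod (n j) → ZMod (n j)),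
    φ 0 = 0 → S.iA (S.cf _ (CF.single_comp hζ j φ) (range_single_comp hf j φ)) ∈ M
  j_supp : ∀ g, S.iG g ∈ M → ∀ t, S.τ t = g → ∀ j, t j ≠ 0 → S.iJ j ∈ M
  glob : ∀ (Y₀ : Finset G) (P : Finset (G × G)) (J₀ : Finset J),
    (∀ y ∈ Y₀, S.iG y ∈ M) → (∀ p ∈ P, S.iG p.1 ∈ M ∧ S.iG p.2 ∈ M) → (∀ j ∈ J₀, S.iJ j ∈ M) →
    (∀ g, ∃ p ∈ P, ∀ y ∈ Y₀, Commute (p.1⁻¹ * g) y) →
    (∀ Y : Finset G, (∀ y ∈ Y, S.iG y ∈ M) → S.LocalAt Y₀ P J₀ Y) →
    ∃ δ, S.iA δ ∈ M ∧ S.GlobalAt Y₀ P J₀ δ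

theorem fin_g_mul : Finitary (fun M : Set S.Om =>
    ∀ a b, S.iG a ∈ M → S.iG b ∈ M → S.iG (a * b) ∈ M) :=
  Finitary.of_binary _ S.iG_inj _ S.iG_inj _ fun a b =>
    ⟨{S.iG (a * b)}, Set.countable_singleton _, fun _ _ _ h => h rfl⟩

theorem fin_g_inv : Finitary (fun M : Set S.Om => ∀ a, S.iG a ∈ M → S.iG a⁻¹ ∈ M) :=
  Finitary.of_unary _ S.iG_inj _ fun a =>
    ⟨{S.iG a⁻¹}, Set.countable_singleton _, fun _ _ h => h rfl⟩

theorem fin_g_conj : Finitary (fun M : Set S.Om =>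
    ∀ a, S.iG a ∈ M → ∀ k : G, S.iG (k * a * k⁻¹) ∈ M) :=
  Finitary.of_unary _ S.iG_inj _ fun a =>
    ⟨S.iG '' (Set.range fun h : G => h * a * h⁻¹), ((S.fc a).image _).countable,
      fun _ _ h k => h ⟨_, ⟨k, rfl⟩, rfl⟩⟩

theorem fin_g_center : Finitary (fun M : Set S.Om =>
    ∀ a, S.iG a ∈ M → a ∉ Subgroup.center G → ∃ b, S.iG b ∈ M ∧ a * b ≠ b * a) := by
  refine Finitary.of_unary _ S.iG_inj _ fun a => ?_
  by_cases ha : a ∈ Subgroup.center G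
  · exact ⟨∅, Set.countable_empty, fun _ _ _ h => absurd ha h⟩
  · have h1 : ∃ b, a * b ≠ b * a := by
      by_contra hcon
      push Not at hcon
      exact ha (Subgroup.mem_center_iff.mpr fun g => (hcon g).symm)
    obtain ⟨b, hb⟩ := h1
    exact ⟨{S.iG b}, Set.countable_singleton _, fun _ _ h _ => ⟨b, h rfl, hb⟩⟩

theorem fin_g_trans : Finitary (fun M : Set S.Om =>
    ∀ Y : Finset G, (∀ y ∈ Y, S.iG y ∈ M) →
    ∃ R : Finset G, (∀ r ∈ R, S.iG r ∈ M) ∧ ∀ g, ∃ r ∈ R, ∀ y ∈ Y, Commute (r⁻¹ * g) y) := by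
  refine (Finitary.of_supp (fun Y : Finset G => Y.map ⟨S.iG, S.iG_inj⟩) ?_
    (fun Y M => ∃ R : Finset G, (∀ r ∈ R, S.iG r ∈ M) ∧
      ∀ g, ∃ r ∈ R, ∀ y ∈ Y, Commute (r⁻¹ * g) y) ?_).mono ?_
  · intro F
    refine Set.Finite.countable ?_
    refine (F.powerset.finite_toSet.preimage
      (Finset.map_injective ⟨S.iG, S.iG_inj⟩).injOn).subset ?_
    intro Y hY
    exact Finset.mem_coe.mpr (Finset.mem_powerset.mpr hY)
  · intro Y
    obtain ⟨R, hR⟩ := exists_finset_transversal _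
      (S.fc.centralizer_finiteIndex_of_finite (↑Y : Set G) Y.finite_toSet)
    refine ⟨S.iG '' ↑R, (R.finite_toSet.image _).countable, fun M _ hM => ⟨R, ?_, ?_⟩⟩
    · intro r hr
      exact hM ⟨r, hr, rfl⟩
    · intro g
      obtain ⟨r, hr, h⟩ := hR g
      refine ⟨r, hr, fun y hy => ?_⟩
      rw [Subgroup.mem_centralizer_iff] at h
      exact (h y hy).symm
  · intro M hM Y hY
    refine hM Y ?_
    intro x hx
    rw [Finset.mem_coe, Finset.mem_map] at hx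
    obtain ⟨y, hy, rfl⟩ := hx
    exact hY y hy

theorem fin_a_mul : Finitary (fun M : Set S.Om =>
    ∀ a b, S.iA a ∈ M → S.iA b ∈ M → S.iA (a * b) ∈ M) :=
  Finitary.of_binary _ S.iA_inj _ S.iA_inj _ fun a b =>
    ⟨{S.iA (a * b)}, Set.countable_singleton _, fun _ _ _ h => h rfl⟩

theorem fin_a_inv : Finitary (fun M : Set S.Om => ∀ a, S.iA a ∈ M → S.iA a⁻¹ ∈ M) :=
  Finitary.of_unary _ S.iA_inj _ fun a =>
    ⟨{S.iA a⁻¹}, Set.countable_singleton _, fun _ _ h => h rfl⟩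

theorem fin_a_disp : Finitary (fun M : Set S.Om =>
    ∀ δ, S.iA δ ∈ M → ∀ g : G, S.iG ((δ : Equiv.Perm G) g * g⁻¹) ∈ M) :=
  Finitary.of_unary _ S.iA_inj _ fun δ =>
    ⟨S.iG '' (Set.range fun g : G => (δ : Equiv.Perm G) g * g⁻¹), ((A_fin δ).image _).countable,
      fun _ _ h g => h ⟨_, ⟨g, rfl⟩, rfl⟩⟩

theorem fin_a_T : Finitary (fun M : Set S.Om =>
    ∀ δ, S.iA δ ∈ M → (∀ g, S.iG g ∈ M → ∃ t, (δ : Equiv.Perm G) g = S.τ t * g) →
    ∀ g, ∃ t, (δ : Equiv.Perm G) g = S.τ t * g) := by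
  refine Finitary.of_unary _ S.iA_inj _ fun δ => ?_
  by_cases h : ∀ g, ∃ t, (δ : Equiv.Perm G) g = S.τ t * g
  · exact ⟨∅, Set.countable_empty, fun _ _ _ _ => h⟩
  · push Not at h
    obtain ⟨g, hg⟩ := h
    refine ⟨{S.iG g}, Set.countable_singleton _, fun M _ hM h => ?_⟩
    obtain ⟨t, ht⟩ := h g (hM rfl)
    exact absurd ht (hg t)

theorem fin_a_faith : Finitary (fun M : Set S.Om =>
    ∀ δ, S.iA δ ∈ M → (∀ g, S.iG g ∈ M → (δ : Equiv.Perm G) g = g) → δ = 1) := by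
  refine Finitary.of_unary _ S.iA_inj _ fun δ => ?_
  by_cases h : δ = 1
  · exact ⟨∅, Set.countable_empty, fun _ _ _ _ => h⟩
  · have h1 : ∃ g, (δ : Equiv.Perm G) g ≠ g := by
      by_contra hcon
      push Not at hcon
      exact h (A_ext hcon)
    obtain ⟨g, hg⟩ := h1
    exact ⟨{S.iG g}, Set.countable_singleton _, fun M _ hM h => absurd (h g (hM rfl)) hg⟩

theorem fin_a_comp : Finitary (fun M : Set S.Om =>
    ∀ δ, S.iA δ ∈ M → ∀ ζ hζ hf, S.cf ζ hζ hf = δ → ∀ j (φ : ZMod (n j) → ZMod (n j)),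
    φ 0 = 0 → S.iA (S.cf _ (CF.single_comp hζ j φ) (range_single_comp hf j φ)) ∈ M) := by
  classical
  haveI : ∀ j, NeZero (n j) := fun j => ⟨S.npos j⟩
  refine Finitary.of_unary _ S.iA_inj _ fun δ => ?_
  by_cases h : ∃ ζ hζ hf, S.cf ζ hζ hf = δ
  · obtain ⟨ζ, hζ, hf, rfl⟩ := h
    set J₀ : Set J := ⋃ t ∈ Set.range ζ, {j | t j ≠ 0} with hJ₀
    have hJfin : J₀.Finite := by
      refine hf.biUnion fun t _ => ?_
      refine t.support.finite_toSet.subset ?_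
      intro j hj
      exact Finset.mem_coe.mpr (DFinsupp.mem_support_iff.mpr hj)
    refine ⟨{S.iA 1} ∪ ⋃ j ∈ J₀, Set.range fun φ : ZMod (n j) → ZMod (n j) =>
      S.iA (S.cf _ (CF.single_comp hζ j φ) (range_single_comp hf j φ)), ?_, ?_⟩
    · refine (Set.countable_singleton _).union ?_
      exact hJfin.countable.biUnion fun j _ => Set.countable_range _
    · intro M _ hM ξ hξ hf' hξζ j φ hφ
      obtain rfl := cf_ext hξζ
      apply hM
      by_cases hj : j ∈ J₀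
      · right
        simp only [Set.mem_iUnion]
        exact ⟨j, hj, φ, rfl⟩
      · left
        have h1 : S.cf _ (CF.single_comp hξ j φ) (range_single_comp hf' j φ) = 1 := by
          apply A_ext
          intro g
          rw [cf_apply]
          have h2 : ξ g j = 0 := by
            by_contra hne
            apply hj
            simp only [hJ₀, Set.mem_iUnion]
            exact ⟨ξ g, ⟨g, rfl⟩, hne⟩
          rw [h2, hφ, DFinsupp.single_zero, S.τ_zero, one_mul]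
          rfl
        rw [h1]
        rfl
  · refine ⟨∅, Set.countable_empty, fun _ _ _ ζ hζ hf hδ => ?_⟩
    exact absurd ⟨ζ, hζ, hf, hδ⟩ h

theorem fin_j_supp : Finitary (fun M : Set S.Om =>
    ∀ g, S.iG g ∈ M → ∀ t, S.τ t = g → ∀ j, t j ≠ 0 → S.iJ j ∈ M) := by
  classical
  refine Finitary.of_unary _ S.iG_inj _ fun g => ?_
  by_cases h : ∃ t, S.τ t = g
  · obtain ⟨t, rfl⟩ := h
    refine ⟨S.iJ '' {j | t j ≠ 0}, ?_, ?_⟩
    · refine Set.Finite.countable (Set.Finite.image _ (t.support.finite_toSet.subset ?_))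
      intro j hj
      exact Finset.mem_coe.mpr (DFinsupp.mem_support_iff.mpr hj)
    · intro M _ hM s hs j hj
      rw [S.τ_inj hs] at hj
      exact hM ⟨j, hj, rfl⟩
  · exact ⟨∅, Set.countable_empty, fun _ _ _ t ht => absurd ⟨t, ht⟩ h⟩

theorem fin_glob : Finitary (fun M : Set S.Om =>
    ∀ (Y₀ : Finset G) (P : Finset (G × G)) (J₀ : Finset J),
    (∀ y ∈ Y₀, S.iG y ∈ M) → (∀ p ∈ P, S.iG p.1 ∈ M ∧ S.iG p.2 ∈ M) → (∀ j ∈ J₀, S.iJ j ∈ M) →
    (∀ g, ∃ p ∈ P, ∀ y ∈ Y₀, Commute (p.1⁻¹ * g) y) →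
    (∀ Y : Finset G, (∀ y ∈ Y, S.iG y ∈ M) → S.LocalAt Y₀ P J₀ Y) →
    ∃ δ, S.iA δ ∈ M ∧ S.GlobalAt Y₀ P J₀ δ) := by
  classical
  set sG : G ↪ S.Om := ⟨S.iG, S.iG_inj⟩ with hsG
  set sJ : J ↪ S.Om := ⟨S.iJ, S.iJ_inj⟩ with hsJ
  set supp : Finset G × Finset (G × G) × Finset J → Finset S.Om := fun a =>
    a.1.map sG ∪ ((a.2.1.image Prod.fst).map sG ∪ ((a.2.1.image Prod.snd).map sG ∪ a.2.2.map sJ))
    with hsupp
  refine (Finitary.of_supp supp ?_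
    (fun a M => (∀ g, ∃ p ∈ a.2.1, ∀ y ∈ a.1, Commute (p.1⁻¹ * g) y) →
    (∀ Y : Finset G, (∀ y ∈ Y, S.iG y ∈ M) → S.LocalAt a.1 a.2.1 a.2.2 Y) →
    ∃ δ, S.iA δ ∈ M ∧ S.GlobalAt a.1 a.2.1 a.2.2 δ) ?_).mono ?_
  · intro F
    refine Set.Finite.countable ?_
    set e : Finset G × Finset (G × G) × Finset J → Finset S.Om × Finset (S.Om × S.Om) × Finset S.Om
      := fun a => (a.1.map sG, a.2.1.map (sG.prodMap sG), a.2.2.map sJ) with he
    have hinj : Function.Injective e := by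
      rintro ⟨a, b, c⟩ ⟨a', b', c'⟩ h
      simp only [he, Prod.mk.injEq] at h
      obtain ⟨h1, h2, h3⟩ := h
      have e1 : a = a' := Finset.map_injective _ h1
      have e2 : b = b' := Finset.map_injective _ h2
      have e3 : c = c' := Finset.map_injective _ h3
      rw [e1, e2, e3]
    refine Set.Finite.subset (Set.Finite.preimage (f := e) hinj.injOn
      ((F.powerset ×ˢ ((F ×ˢ F).powerset ×ˢ F.powerset)).finite_toSet)) ?_
    rintro ⟨Y₀, P, J₀⟩ ha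
    change supp (Y₀, P, J₀) ⊆ F at ha
    simp only [hsupp, Finset.union_subset_iff] at ha
    obtain ⟨h1, h2, h3, h4⟩ := ha
    rw [Set.mem_preimage, Finset.mem_coe, Finset.mem_product, Finset.mem_product]
    simp only [he, Finset.mem_powerset]
    refine ⟨h1, ?_, h4⟩
    intro x hx
    rw [Finset.mem_map] at hx
    obtain ⟨p, hp, rfl⟩ := hx
    rw [Finset.mem_product]
    exact ⟨h2 (Finset.mem_map_of_mem _ (Finset.mem_image_of_mem _ hp)),
      h3 (Finset.mem_map_of_mem _ (Finset.mem_image_of_mem _ hp))⟩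
  · rintro ⟨Y₀, P, J₀⟩
    dsimp only
    by_cases h : ∃ δ, S.GlobalAt Y₀ P J₀ δ
    · obtain ⟨δ, hδ⟩ := h
      exact ⟨{S.iA δ}, Set.countable_singleton _, fun M _ hM _ _ => ⟨δ, hM rfl, hδ⟩⟩
    · by_cases h2 : ∃ Y, ¬ S.LocalAt Y₀ P J₀ Y
      · obtain ⟨Y, hY⟩ := h2
        refine ⟨S.iG '' ↑Y, (Y.finite_toSet.image _).countable, fun M _ hM _ hloc => ?_⟩
        exact absurd (hloc Y (fun y hy => hM ⟨y, hy, rfl⟩)) hY
      · push Not at h2
        refine ⟨∅, Set.countable_empty, fun M _ _ hcov _ => ?_⟩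
        exact absurd (compactness Y₀ P J₀ hcov h2) h
  · intro M hM Y₀ P J₀ h1 h2 h3 hcov hloc
    refine hM (Y₀, P, J₀) ?_ hcov hloc
    intro x hx
    rw [Finset.mem_coe] at hx
    simp only [hsupp, Finset.mem_union, Finset.mem_map, Finset.mem_image] at hx
    rcases hx with ⟨y, hy, rfl⟩ | ⟨y, ⟨p, hp, rfl⟩, rfl⟩ | ⟨y, ⟨p, hp, rfl⟩, rfl⟩ | ⟨j, hj, rfl⟩
    · exact h1 y hy
    · exact (h2 p hp).1
    · exact (h2 p hp).2
    · exact h3 j hj

theorem finitary_good : Finitary (fun M : Set S.Om => S.Good M) := by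
  refine ((Finitary.of_const (S.iG 1)).and (S.fin_g_mul.and (S.fin_g_inv.and (S.fin_g_conj.and
    (S.fin_g_center.and (S.fin_g_trans.and ((Finitary.of_const (S.iA 1)).and (S.fin_a_mul.and
    (S.fin_a_inv.and (S.fin_a_disp.and (S.fin_a_T.and (S.fin_a_faith.and (S.fin_a_comp.and
    (S.fin_j_supp.and S.fin_glob)))))))))))))).mono ?_
  rintro M ⟨h1, h2, h3, h4, h5, h6, h7, h8, h9, h10, h11, h12, h13, h14, h15⟩
  exact ⟨h1, h2, h3, h4, h5, h6, h7, h8, h9, h10, h11, h12, h13, h14, h15⟩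

end Setup

end Pool.Agent.FCU
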