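import Mathlib
import Pool.Agent.FCU.Good

set_option autoImplicit false
set_option linter.style.haveILetI false
set_option linter.unusedSectionVars false

namespace Pool.Agent.FCU

universe u

namespace Setup

variable {G : Type u} [Group G] {J : Type u} [DecidableEq J] {n : J → ℕ} {S : Setup G J n}

variable (S) in
theorem τ_commute (t : Π₀ j, ZMod (n j)) (g : G) : Commute (S.τ t) g := S.τ_comm t g

theorem Good.τ_mul_mem_center {t : Π₀ j, ZMod (n j)} {e : G} :
    S.τ t * e ∈ Subgroup.center G ↔ e ∈ Subgroup.center G := by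
  constructor
  · intro h
    have := (Subgroup.center G).mul_mem ((Subgroup.center G).inv_mem (S.τ_center t)) h
    rwa [inv_mul_cancel_left] at this
  · intro h
    exact (Subgroup.center G).mul_mem (S.τ_center t) h

/-- Every element of `A` agrees on `M`, modulo `T`, with an element of `M`. -/
theorem Good.stepA {M : Set S.Om} (hM : S.Good M) (x : S.A) :
    ∃ δ, S.iA δ ∈ M ∧ ∀ g, S.iG g ∈ M →
      ∃ t, (x : Equiv.Perm G) g = S.τ t * (δ : Equiv.Perm G) g := by
  classical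
  set X : Equiv.Perm G := (x : Equiv.Perm G) with hX
  have hXloc : S.Loc X := A_loc x
  -- the displacement set on `M`
  set EH : Set G := (fun g => X g * g⁻¹) '' {g | S.iG g ∈ M} with hEH
  have hEHfin : EH.Finite := (A_fin x).subset (by rintro _ ⟨g, -, rfl⟩; exact ⟨g, rfl⟩)
  have hrep : ∀ g, S.iG g ∈ M → ∃ t k, S.iG k ∈ M ∧ X g = S.τ t * (k * g) := by
    intro g hg
    obtain ⟨t, h, hth⟩ := hXloc.exists_conj g
    refine ⟨t, h * g * h⁻¹ * g⁻¹, hM.g_mul _ _ (hM.g_conj _ hg h) (hM.g_inv _ hg), ?_⟩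
    rw [hth]
    congr 1
    group
  have hchoice : ∀ e : G, ∃ e' y : G, e ∈ EH → (S.iG e' ∈ M ∧ S.iG y ∈ M ∧
      (∃ t, e = S.τ t * e') ∧ (e ∉ Subgroup.center G → ¬ Commute e (X y))) := by
    intro e
    by_cases he : e ∈ EH
    · obtain ⟨g, hg, rfl⟩ := he
      obtain ⟨t, k, hk, hXg⟩ := hrep g hg
      have hek : X g * g⁻¹ = S.τ t * k := by rw [hXg]; group
      by_cases hc : X g * g⁻¹ ∈ Subgroup.center G
      · exact ⟨k, 1, fun _ => ⟨hk, hM.g_one, ⟨t, hek⟩, fun h => absurd hc h⟩⟩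
      · have hkc : k ∉ Subgroup.center G := by
          rw [hek, Good.τ_mul_mem_center] at hc
          exact hc
        obtain ⟨b, hb, hkb⟩ := hM.g_center k hk hkc
        obtain ⟨y₀, hy₀⟩ := X.surjective b
        have hsym : S.Loc X.symm := Loc.symm X hXloc
        obtain ⟨s, h, hsh⟩ := hsym.exists_conj b
        have hy₀' : y₀ = S.τ s * (h * b * h⁻¹) := by
          rw [← hsh, ← hy₀, Equiv.symm_apply_apply]
        refine ⟨k, h * b * h⁻¹, fun _ => ⟨hk, hM.g_conj _ hb h, ⟨t, hek⟩, fun _ hcomm => ?_⟩⟩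
        apply hkb
        have h1 : h * b * h⁻¹ = S.τ (-s) * y₀ := by
          rw [hy₀', S.τ_τ_mul, neg_add_cancel, S.τ_zero, one_mul]
        rw [h1, hXloc.smul, hy₀] at hcomm
        have h2 : Commute (X g * g⁻¹) b := by
          have h3 := (S.τ_commute s (X g * g⁻¹)).symm.mul_right hcomm
          rwa [← mul_assoc, ← S.τ_add, add_neg_cancel, S.τ_zero, one_mul] at h3
        rw [hek] at h2
        have h4 : Commute k b := by
          have h3 := (S.τ_commute (-t) b).mul_left h2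
          rwa [← mul_assoc, ← S.τ_add, neg_add_cancel, S.τ_zero, one_mul] at h3
        exact h4
    · exact ⟨1, 1, fun h => absurd h he⟩
  choose e' y hey using hchoice
  set Y₀ : Finset G := hEHfin.toFinset.image e' ∪ hEHfin.toFinset.image y with hY₀
  have hY₀M : ∀ z ∈ Y₀, S.iG z ∈ M := by
    intro z hz
    rw [hY₀, Finset.mem_union, Finset.mem_image, Finset.mem_image] at hz
    rcases hz with ⟨e, he, rfl⟩ | ⟨e, he, rfl⟩
    · exact (hey e (hEHfin.mem_toFinset.mp he)).1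
    · exact (hey e (hEHfin.mem_toFinset.mp he)).2.1
  -- on the centralizer of `Y₀` the map `X` is a translation by `T`
  have hN : ∀ m, S.iG m ∈ M → (∀ z ∈ Y₀, Commute m z) → ∃ t, X m = S.τ t * m := by
    intro m hm hmz
    set e := X m * m⁻¹ with he
    have heEH : e ∈ EH := ⟨m, hm, rfl⟩
    by_cases hc : e ∈ Subgroup.center G
    · exact hXloc.disp_mem m hc
    · exfalso
      obtain ⟨-, hyM, -, hnc⟩ := hey e heEH
      apply hnc hc
      have hyY : y e ∈ Y₀ := Finset.mem_union_right _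
        (Finset.mem_image_of_mem _ (hEHfin.mem_toFinset.mpr heEH))
      have h1 : Commute (X m) (X (y e)) := hXloc.commute (hmz _ hyY)
      have h2 : Commute m (X (y e)) := by
        have hd : X (y e) * (y e)⁻¹ ∈ EH := ⟨y e, hyM, rfl⟩
        obtain ⟨-, -, ⟨t, ht⟩, -⟩ := hey _ hd
        have hdY : e' (X (y e) * (y e)⁻¹) ∈ Y₀ := Finset.mem_union_left _
          (Finset.mem_image_of_mem _ (hEHfin.mem_toFinset.mpr hd))
        have h3 : X (y e) = S.τ t * e' (X (y e) * (y e)⁻¹) * y e := by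
          rw [← ht]
          group
        rw [h3]
        exact ((S.τ_commute t m).symm.mul_right (hmz _ hdY)).mul_right (hmz _ hyY)
      exact h1.mul_left h2.inv_left
  obtain ⟨R, hRM, hR⟩ := hM.g_trans Y₀ hY₀M
  have hrep' : ∀ r : G, ∃ t k, S.iG r ∈ M → (S.iG k ∈ M ∧ X r = S.τ t * (k * r)) := by
    intro r
    by_cases hr : S.iG r ∈ M
    · obtain ⟨t, k, h1, h2⟩ := hrep r hr
      exact ⟨t, k, fun _ => ⟨h1, h2⟩⟩
    · exact ⟨0, 1, fun h => absurd h hr⟩
  choose tr kr hkr using hrep'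
  have hXg : ∀ r ∈ R, ∀ g, S.iG g ∈ M → (∀ z ∈ Y₀, Commute (r⁻¹ * g) z) →
      ∃ t, X g = S.τ t * (kr r * g) := by
    intro r hr g hg hz
    have hm : S.iG (r⁻¹ * g) ∈ M := hM.g_mul _ _ (hM.g_inv _ (hRM r hr)) hg
    obtain ⟨t, ht⟩ := hN _ hm hz
    obtain ⟨s, hs⟩ := hXloc.mul r (r⁻¹ * g)
    obtain ⟨-, hk2⟩ := hkr r (hRM r hr)
    rw [mul_inv_cancel_left] at hs
    refine ⟨s + (tr r + t), ?_⟩
    rw [hs, ht, hk2, S.τ_mul_τ, S.τ_τ_mul]
    congr 1
    group
  -- the finite set of coordinates involved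
  obtain ⟨J₁, hJ₁⟩ : ∃ J₁ : Finset J, ∀ r ∈ R, ∀ g, ∀ t, X g = S.τ t * (kr r * g) →
      ∀ j, j ∉ J₁ → t j = 0 := by
    have hfin : (S.τ ⁻¹' (⋃ r ∈ (↑R : Set G), (fun e => e * (kr r)⁻¹) ''
        (Set.range fun g => X g * g⁻¹))).Finite := by
      refine Set.Finite.preimage S.τ_inj.injOn ?_
      exact R.finite_toSet.biUnion fun r _ => (A_fin x).image _
    refine ⟨hfin.toFinset.biUnion fun t => t.support, ?_⟩
    intro r hr g t ht j hj
    by_contra hne
    apply hj
    rw [Finset.mem_biUnion]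
    refine ⟨t, hfin.mem_toFinset.mpr ?_, DFinsupp.mem_support_iff.mpr hne⟩
    rw [Set.mem_preimage]
    simp only [Set.mem_iUnion]
    refine ⟨r, hr, X g * g⁻¹, ⟨g, rfl⟩, ?_⟩
    change X g * g⁻¹ * (kr r)⁻¹ = S.τ t
    rw [ht]
    group
  set J₀ : Finset J := J₁.filter (fun j => S.iJ j ∈ M) with hJ₀
  set P : Finset (G × G) := R.image (fun r => (r, kr r)) with hP
  have hglob := hM.glob Y₀ P J₀ hY₀M ?_ ?_ ?_ ?_
  · obtain ⟨δ, hδM, hδ⟩ := hglob
    refine ⟨δ, hδM, ?_⟩
    intro g hg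
    obtain ⟨r, hr, hrg⟩ := hR g
    obtain ⟨t, ht⟩ := hXg r hr g hg hrg
    obtain ⟨s, -, hs⟩ := hδ (r, kr r) (Finset.mem_image_of_mem _ hr) g hrg
    refine ⟨t - s, ?_⟩
    rw [ht, hs, S.τ_τ_mul, sub_add_cancel]
  · intro p hp
    rw [hP, Finset.mem_image] at hp
    obtain ⟨r, hr, rfl⟩ := hp
    exact ⟨hRM r hr, (hkr r (hRM r hr)).1⟩
  · intro j hj
    rw [hJ₀, Finset.mem_filter] at hj
    exact hj.2
  · intro g
    obtain ⟨r, hr, hrg⟩ := hR g
    exact ⟨(r, kr r), Finset.mem_image_of_mem _ hr, hrg⟩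
  · intro Y hYM
    obtain ⟨h, ζ, hζ, hY⟩ := hXloc Y
    refine ⟨h, fun g => DFinsupp.filter (fun j => S.iJ j ∈ M) (ζ g), CF.comp S hζ _, ?_⟩
    intro p hp g hg hpg
    rw [hP, Finset.mem_image] at hp
    obtain ⟨r, hr, rfl⟩ := hp
    have hgM := hYM g hg
    obtain ⟨t, ht⟩ := hXg r hr g hgM hpg
    have hk := (hkr r (hRM r hr)).1
    have e1 : S.τ (ζ g) * (h * g * h⁻¹) = S.τ t * (kr r * g) := by
      rw [← hY g hg, ht]
    have e2 : S.τ (ζ g - t) = kr r * g * (h * g * h⁻¹)⁻¹ := by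
      have : S.τ (ζ g - t) * (h * g * h⁻¹) = kr r * g := by
        rw [sub_eq_neg_add, ← S.τ_τ_mul, e1, S.τ_τ_mul, neg_add_cancel, S.τ_zero, one_mul]
      rw [← this]
      group
    have e3 : S.iG (kr r * g * (h * g * h⁻¹)⁻¹) ∈ M :=
      hM.g_mul _ _ (hM.g_mul _ _ hk hgM) (hM.g_inv _ (hM.g_conj _ hgM h))
    have e4 : ∀ j, (ζ g - t) j ≠ 0 → S.iJ j ∈ M := hM.j_supp _ e3 _ e2
    refine ⟨DFinsupp.filter (fun j => S.iJ j ∈ M) t, ?_, ?_⟩
    · intro j hj
      rw [DFinsupp.filter_apply]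
      by_cases hjM : S.iJ j ∈ M
      · rw [if_pos hjM]
        apply hJ₁ r hr g t ht
        intro hj1
        apply hj
        rw [hJ₀, Finset.mem_filter]
        exact ⟨hj1, hjM⟩
      · rw [if_neg hjM]
    · have e5 : DFinsupp.filter (fun j => S.iJ j ∈ M) (ζ g) =
          DFinsupp.filter (fun j => S.iJ j ∈ M) t + (ζ g - t) := by
        ext j
        rw [DFinsupp.add_apply, DFinsupp.filter_apply, DFinsupp.filter_apply, DFinsupp.sub_apply]
        by_cases hjM : S.iJ j ∈ M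
        · rw [if_pos hjM, if_pos hjM]
          abel
        · rw [if_neg hjM, if_neg hjM]
          have := e4 j
          rw [DFinsupp.sub_apply] at this
          by_contra hne
          apply hjM
          apply this
          intro h0
          apply hne
          rw [h0, add_zero]
      have e6 : S.τ (ζ g - t) * (h * g * h⁻¹) = kr r * g := by
        rw [e2]
        group
      change S.τ (DFinsupp.filter (fun j => S.iJ j ∈ M) (ζ g)) * (h * g * h⁻¹) =
        S.τ (DFinsupp.filter (fun j => S.iJ j ∈ M) t) * (kr r * g)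
      rw [e5, S.τ_add, mul_assoc, e6]

end Setup

end Pool.Agent.FCU
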