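import Mathlib
import Pool.Agent.FCU.StepA

set_option autoImplicit false
set_option linter.style.haveILetI false
set_option linter.unusedSectionVars false

namespace Pool.Agent.FCU

universe u

/-- Abstract splitting lemma. -/
theorem exists_retraction {A : Type u} [Group A] (Δ X : Subgroup A)
    (hdec : ∀ x : A, ∃ δ ∈ Δ, δ⁻¹ * x ∈ X)
    (hcomm : ∀ δ ∈ Δ, ∀ u ∈ X, Commute u δ)
    (ρ : X →* A) (hρΔ : ∀ u, ρ u ∈ Δ) (hρX : ∀ u, ρ u ∈ X)
    (hρid : ∀ u : X, (u : A) ∈ Δ → ρ u = u) (hρc : ∀ u (y : A), Commute (ρ u) y) :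
    ∃ f : A →* A, (∀ x, f x ∈ Δ) ∧ (∀ x ∈ Δ, f x = x) ∧ (∀ x y, f x = 1 → Commute x (f y)) := by
  choose d hd1 hd2 using hdec
  set F : A → A := fun x => d x * ρ ⟨(d x)⁻¹ * x, hd2 x⟩ with hF
  have key : ∀ (x δ : A) (_ : δ ∈ Δ) (hx : δ⁻¹ * x ∈ X), F x = δ * ρ ⟨δ⁻¹ * x, hx⟩ := by
    intro x δ hδ hx
    have e1 : (((⟨(d x)⁻¹ * x, hd2 x⟩ * (⟨δ⁻¹ * x, hx⟩ : X)⁻¹ : X)) : A) = (d x)⁻¹ * δ := by
      change (d x)⁻¹ * x * (δ⁻¹ * x)⁻¹ = (d x)⁻¹ * δ
      group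
    have e2 := hρid (⟨(d x)⁻¹ * x, hd2 x⟩ * (⟨δ⁻¹ * x, hx⟩ : X)⁻¹) (by
      rw [e1]
      exact Δ.mul_mem (Δ.inv_mem (hd1 x)) hδ)
    rw [e1, map_mul, map_inv] at e2
    have e3 : ρ ⟨(d x)⁻¹ * x, hd2 x⟩ = (d x)⁻¹ * δ * ρ ⟨δ⁻¹ * x, hx⟩ := by
      rw [← e2]
      group
    change d x * ρ ⟨(d x)⁻¹ * x, hd2 x⟩ = _
    rw [e3]
    group
  have hFmul : ∀ x y, F (x * y) = F x * F y := by
    intro x y
    have hc : Commute ((d x)⁻¹ * x) (d y) := hcomm _ (hd1 y) _ (hd2 x)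
    have e1 : (d x * d y)⁻¹ * (x * y) = ((d x)⁻¹ * x) * ((d y)⁻¹ * y) := by
      calc (d x * d y)⁻¹ * (x * y) = (d y)⁻¹ * ((d x)⁻¹ * x) * y := by group
        _ = ((d x)⁻¹ * x) * (d y)⁻¹ * y := by rw [hc.symm.inv_left.eq]
        _ = _ := by group
    have hx : (d x * d y)⁻¹ * (x * y) ∈ X := by
      rw [e1]
      exact X.mul_mem (hd2 x) (hd2 y)
    rw [key (x * y) (d x * d y) (Δ.mul_mem (hd1 x) (hd1 y)) hx]
    have e2 : (⟨(d x * d y)⁻¹ * (x * y), hx⟩ : X) = ⟨(d x)⁻¹ * x, hd2 x⟩ * ⟨(d y)⁻¹ * y, hd2 y⟩ :=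
      Subtype.ext e1
    rw [e2, map_mul]
    change _ = d x * ρ ⟨(d x)⁻¹ * x, hd2 x⟩ * (d y * ρ ⟨(d y)⁻¹ * y, hd2 y⟩)
    calc d x * d y * (ρ ⟨(d x)⁻¹ * x, hd2 x⟩ * ρ ⟨(d y)⁻¹ * y, hd2 y⟩)
        = d x * (d y * ρ ⟨(d x)⁻¹ * x, hd2 x⟩) * ρ ⟨(d y)⁻¹ * y, hd2 y⟩ := by group
      _ = d x * (ρ ⟨(d x)⁻¹ * x, hd2 x⟩ * d y) * ρ ⟨(d y)⁻¹ * y, hd2 y⟩ := by
          rw [(hρc ⟨(d x)⁻¹ * x, hd2 x⟩ (d y)).eq]
      _ = _ := by group
  refine ⟨MonoidHom.mk' F hFmul, ?_, ?_, ?_⟩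
  · intro x
    exact Δ.mul_mem (hd1 x) (hρΔ _)
  · intro x hx
    have h1 : x⁻¹ * x ∈ X := by rw [inv_mul_cancel]; exact X.one_mem
    change F x = x
    rw [key x x hx h1]
    have h2 : (⟨x⁻¹ * x, h1⟩ : X) = 1 := Subtype.ext (inv_mul_cancel x)
    rw [h2, map_one, mul_one]
  · intro x y hx
    change F x = 1 at hx
    change Commute x (F y)
    have h1 : d x = (ρ ⟨(d x)⁻¹ * x, hd2 x⟩)⁻¹ := eq_inv_of_mul_eq_one_left hx
    have h2 : x ∈ X := by
      have e1 : x = d x * ((d x)⁻¹ * x) := by group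
      rw [e1]
      refine X.mul_mem ?_ (hd2 x)
      rw [h1]
      exact X.inv_mem (hρX _)
    exact hcomm _ (Δ.mul_mem (hd1 y) (hρΔ _)) x h2

/-- Double annihilators in `ZMod N`. -/
theorem zmod_exists_mul_eq {N : ℕ} (hN : N ≠ 0) (a v : ZMod N)
    (h : ∀ y : ZMod N, y * a = 0 → y * v = 0) : ∃ w, a * w = v := by
  haveI : NeZero N := ⟨hN⟩
  set g := Nat.gcd a.val N with hg
  have hgN : g ∣ N := Nat.gcd_dvd_right _ _
  have hga : g ∣ a.val := Nat.gcd_dvd_left _ _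
  have hgpos : 0 < g := Nat.gcd_pos_of_pos_right _ (Nat.pos_of_ne_zero hN)
  have ha : ((a.val : ℕ) : ZMod N) = a := ZMod.natCast_zmod_val a
  have hv : ((v.val : ℕ) : ZMod N) = v := ZMod.natCast_zmod_val v
  have h1 : (((N / g : ℕ) : ZMod N)) * a = 0 := by
    rw [← ha, ← Nat.cast_mul, ZMod.natCast_eq_zero_iff]
    obtain ⟨c, hc⟩ := hga
    rw [hc, ← mul_assoc, Nat.div_mul_cancel hgN]
    exact dvd_mul_right _ _
  have h2 := h _ h1
  rw [← hv, ← Nat.cast_mul, ZMod.natCast_eq_zero_iff] at h2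
  have h3 : g ∣ v.val := by
    have h4 : (N / g) * g ∣ (N / g) * v.val := by rwa [Nat.div_mul_cancel hgN]
    exact Nat.dvd_of_mul_dvd_mul_left (Nat.div_pos (Nat.le_of_dvd (Nat.pos_of_ne_zero hN) hgN) hgpos) h4
  obtain ⟨c, hc⟩ := h3
  refine ⟨((Nat.gcdA a.val N : ℤ) : ZMod N) * c, ?_⟩
  have h5 : ((g : ℕ) : ZMod N) = a * ((Nat.gcdA a.val N : ℤ) : ZMod N) := by
    have h6 := Nat.gcd_eq_gcd_ab a.val N
    have h7 : (((Nat.gcd a.val N : ℕ) : ℤ) : ZMod N) =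
        ((((a.val : ℕ) : ℤ) * Nat.gcdA a.val N + (N : ℤ) * Nat.gcdB a.val N : ℤ) : ZMod N) := by
      rw [h6]
    push_cast at h7
    rw [ZMod.natCast_self, zero_mul, add_zero, ha] at h7
    exact h7
  rw [← mul_assoc, ← h5, ← Nat.cast_mul, ← hc, hv]

namespace Setup

variable {G : Type u} [Group G] {J : Type u} [DecidableEq J] {n : J → ℕ} {S : Setup G J n}

theorem cf_commute (x : S.A) (ζ : G → Π₀ j, ZMod (n j)) (hζ : S.CF ζ) (hf : (Set.range ζ).Finite) :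
    Commute (S.cf ζ hζ hf) x := by
  apply A_ext
  intro g
  change (S.cf ζ hζ hf : Equiv.Perm G) ((x : Equiv.Perm G) g) =
    (x : Equiv.Perm G) ((S.cf ζ hζ hf : Equiv.Perm G) g)
  rw [cf_apply, cf_apply, (A_loc x).smul]
  congr 2
  obtain ⟨t, h, hth⟩ := (A_loc x).exists_conj g
  rw [hth, hζ.conj_mul]

theorem cf_mul (ζ ξ : G → Π₀ j, ZMod (n j)) (hζ : S.CF ζ) (hf : (Set.range ζ).Finite)
    (hξ : S.CF ξ) (hf' : (Set.range ξ).Finite) (hζξ : S.CF (ζ + ξ))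
    (hff : (Set.range (ζ + ξ)).Finite) :
    S.cf ζ hζ hf * S.cf ξ hξ hf' = S.cf (ζ + ξ) hζξ hff := by
  apply A_ext
  intro g
  change (S.cf ζ hζ hf : Equiv.Perm G) ((S.cf ξ hξ hf' : Equiv.Perm G) g) = _
  rw [cf_apply, cf_apply, cf_apply, hζ.2, S.τ_τ_mul, Pi.add_apply]

theorem range_add {ζ ξ : G → Π₀ j, ZMod (n j)} (hf : (Set.range ζ).Finite)
    (hf' : (Set.range ξ).Finite) : (Set.range (ζ + ξ)).Finite := by
  refine (Set.Finite.image2 (fun a b => a + b) hf hf').subset ?_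
  rintro _ ⟨g, rfl⟩
  exact ⟨ζ g, ⟨g, rfl⟩, ξ g, ⟨g, rfl⟩, rfl⟩

theorem range_zero : (Set.range (0 : G → Π₀ j, ZMod (n j))).Finite := by
  refine (Set.finite_singleton 0).subset ?_
  rintro _ ⟨g, rfl⟩
  rfl

theorem cf_zero : S.cf 0 (CF.zero S) range_zero = 1 := by
  apply A_ext
  intro g
  rw [cf_apply, Pi.zero_apply, S.τ_zero, one_mul]
  rfl

theorem exists_cf (δ : S.A) (h : ∀ g, ∃ t, (δ : Equiv.Perm G) g = S.τ t * g) :
    ∃ ζ hζ hf, S.cf ζ hζ hf = δ := by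
  choose ζ hζ using h
  have hCF1 : ∀ k g, ζ (k * g * k⁻¹) = ζ g := by
    intro k g
    have h1 := (A_loc δ).conj k g
    rw [hζ, hζ k, hζ g, S.τ_mul_τ, S.τ_mul_inv, S.τ_mul_τ] at h1
    have h2 : ζ k + ζ g + -ζ k = ζ g := by abel
    rw [h2] at h1
    exact S.τ_inj (mul_right_cancel h1)
  have hCF2 : ∀ t g, ζ (S.τ t * g) = ζ g := by
    intro t g
    have h1 := (A_loc δ).smul t g
    rw [hζ, hζ g, S.τ_τ_mul, S.τ_τ_mul] at h1
    have h2 := S.τ_inj (mul_right_cancel h1)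
    rw [add_comm t] at h2
    exact add_right_cancel h2
  have hCF : S.CF ζ := ⟨hCF1, hCF2⟩
  have hf : (Set.range ζ).Finite := by
    refine Set.Finite.of_finite_image (f := S.τ) ((A_fin δ).subset ?_) S.τ_inj.injOn
    rintro _ ⟨_, ⟨k, rfl⟩, rfl⟩
    refine ⟨k, ?_⟩
    change (δ : Equiv.Perm G) k * k⁻¹ = S.τ (ζ k)
    rw [hζ k]
    group
  refine ⟨ζ, hCF, hf, ?_⟩
  apply A_ext
  intro g
  exact (hζ g).symm

theorem iA_cf_congr {M : Set S.Om} {ζ ξ : G → Π₀ j, ZMod (n j)} {hζ : S.CF ζ}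
    {hf : (Set.range ζ).Finite} (h : S.iA (S.cf ζ hζ hf) ∈ M) (hζξ : ζ = ξ) :
    ∃ hξ hf', S.iA (S.cf ξ hξ hf') ∈ M := by
  subst hζξ
  exact ⟨hζ, hf, h⟩

/-- Elements of `A` that translate `M` by `T`. -/
def InX (M : Set S.Om) (x : S.A) : Prop :=
  ∀ g, S.iG g ∈ M → ∃ t, (x : Equiv.Perm G) g = S.τ t * g

theorem Good.commute {M : Set S.Om} (hM : S.Good M) {x δ : S.A} (hx : InX M x)
    (hδ : S.iA δ ∈ M) : Commute x δ := by
  classical
  obtain ⟨h, hh⟩ := conj_formula x δ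
  set X : Equiv.Perm G := (x : Equiv.Perm G) with hX
  set D : Equiv.Perm G := (δ : Equiv.Perm G) with hD
  set e : G := D h * h⁻¹ with he
  have heM : S.iG e ∈ M := hM.a_disp δ hδ h
  have hec : e ∈ Subgroup.center G := by
    by_contra hc
    obtain ⟨b, hb, heb⟩ := hM.g_center e heM hc
    have hδinv := hM.a_inv δ hδ
    set g : G := D.symm b with hg
    have hgM : S.iG g ∈ M := by
      have h1 := hM.a_disp _ hδinv b
      have h2 := hM.g_mul _ _ h1 hb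
      rw [inv_mul_cancel_right] at h2
      exact h2
    have hDg : D g = b := D.apply_symm_apply b
    obtain ⟨t, ht⟩ := hx g hgM
    have hclaim : X (D g) = S.τ t * D g := by
      obtain ⟨s, k, hk⟩ := (A_loc δ).exists_conj g
      obtain ⟨R, hRM, hR⟩ := hM.g_trans {g} (by
        intro y hy
        rw [Finset.mem_singleton] at hy
        rw [hy]
        exact hgM)
      obtain ⟨r, hr, hrk⟩ := hR k
      have h1 : k * g * k⁻¹ = r * g * r⁻¹ := by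
        have h2 : (r⁻¹ * k) * g = g * (r⁻¹ * k) := hrk g (Finset.mem_singleton_self g)
        calc k * g * k⁻¹ = r * ((r⁻¹ * k) * g) * k⁻¹ := by group
          _ = r * (g * (r⁻¹ * k)) * k⁻¹ := by rw [h2]
          _ = r * g * r⁻¹ := by group
      obtain ⟨u, hu⟩ := hx r (hRM r hr)
      change D g = _ at hk
      change X r = _ at hu
      change X g = _ at ht
      rw [hk, h1, (A_loc x).smul, (A_loc x).conj]
      change S.τ s * (X r * X g * (X r)⁻¹) = _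
      rw [hu, ht, S.τ_mul_τ, S.τ_mul_inv, S.τ_mul_τ, S.τ_τ_mul, S.τ_τ_mul]
      congr 2
      abel
    have h3 : X (D g) = e⁻¹ * D (X g) * e := by
      have h4 : x * δ = (S.inn e)⁻¹ * δ * x := by
        rw [← hh]
        group
      rw [← map_inv] at h4
      have h5 : ((x * δ : S.A) : Equiv.Perm G) g = ((S.inn e⁻¹ * δ * x : S.A) : Equiv.Perm G) g := by
        rw [h4]
      change X (D g) = e⁻¹ * D (X g) * e⁻¹⁻¹ at h5
      rw [h5, inv_inv]
    have h6 : D (X g) = S.τ t * D g := by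
      change X g = _ at ht
      rw [ht, (A_loc δ).smul]
    rw [hclaim, h6, hDg] at h3
    apply heb
    have h7 : e * (S.τ t * b) = (S.τ t * b) * e := by
      nth_rewrite 1 [h3]
      group
    have h8 : e * (S.τ t * b) = S.τ t * (e * b) := by
      rw [← mul_assoc, ← S.τ_comm t e, mul_assoc]
    have h9 : S.τ t * (e * b) = S.τ t * (b * e) := by rw [← h8, h7, mul_assoc]
    exact mul_left_cancel h9
  rw [(S.inn_eq_one_iff e).mpr hec, inv_one, one_mul] at hh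
  have h9 : x * δ = δ * x := by
    calc x * δ = (x * δ * x⁻¹) * x := by group
      _ = δ * x := by rw [hh]
  exact h9

/-- The submodule of class functions with values in `ZMod (n j)` that belong to `M`. -/
def Good.Dsub {M : Set S.Om} (hM : S.Good M) (j : J) : Submodule (ZMod (n j)) (G → ZMod (n j)) where
  carrier := {d | ∃ hζ hf, S.iA (S.cf (fun g => DFinsupp.single j (d g)) hζ hf) ∈ M}
  zero_mem' := by
    have h0 : (fun g : G => (DFinsupp.single j ((0 : G → ZMod (n j)) g) : Π₀ j, ZMod (n j))) = 0 := by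
      funext g
      rw [Pi.zero_apply, DFinsupp.single_zero]
      rfl
    have h1 : S.iA (S.cf 0 (CF.zero S) range_zero) ∈ M := by
      rw [cf_zero]
      exact hM.a_one
    exact iA_cf_congr h1 h0.symm
  add_mem' := by
    rintro a b ⟨hζ, hf, ha⟩ ⟨hξ, hf', hb⟩
    have h0 : (fun g : G => (DFinsupp.single j ((a + b) g) : Π₀ j, ZMod (n j))) =
        (fun g => DFinsupp.single j (a g)) + (fun g => DFinsupp.single j (b g)) := by
      funext g
      rw [Pi.add_apply, Pi.add_apply, DFinsupp.single_add]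
    have h1 := hM.a_mul _ _ ha hb
    rw [cf_mul _ _ hζ hf hξ hf' (CF.add S hζ hξ) (range_add hf hf')] at h1
    exact iA_cf_congr h1 h0.symm
  smul_mem' := by
    rintro c a ⟨hζ, hf, ha⟩
    have h0 : (fun g : G => (DFinsupp.single j ((c • a) g) : Π₀ j, ZMod (n j))) =
        (fun g => DFinsupp.single j ((fun v => c * v)
          ((DFinsupp.single j (a g) : Π₀ j, ZMod (n j)) j))) := by
      funext g
      rw [Pi.smul_apply, smul_eq_mul, DFinsupp.single_eq_same]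
    have h1 := hM.a_comp _ ha _ hζ hf rfl j (fun v => c * v) (mul_zero c)
    exact iA_cf_congr h1 h0.symm

end Setup

end Pool.Agent.FCU
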