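import Mathlib
import Pool.Agent.FCU.Induct
import Pool.Agent.FCU.Retract

set_option autoImplicit false
set_option linter.style.haveILetI false
set_option linter.unusedSectionVars false

namespace Pool.Agent.FCU

universe u

namespace Setup

variable {G : Type u} [Group G] {J : Type u} [DecidableEq J] {n : J → ℕ} (S : Setup G J n)

theorem mem_closure_preimage {M : Set S.Om} (hM : S.Good M) (x : S.A) :
    x ∈ Subgroup.closure (S.iA ⁻¹' M) ↔ S.iA x ∈ M := by
  constructor
  · intro hx
    induction hx using Subgroup.closure_induction with
    | mem x hx => exact hx
    | one => exact hM.a_one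
    | mul x y _ _ hx hy => exact hM.a_mul x y hx hy
    | inv x _ hx => exact hM.a_inv x hx
  · intro hx
    exact Subgroup.subset_closure hx

/-- The group `A` embeds in a restricted direct product of finite groups. -/
theorem sdf_A : SDF S.A := by
  obtain ⟨φ, hφ, hgood⟩ := S.finitary_good
  have h1 := SDF.of_closure φ hφ S.iA (fun M => Subgroup.closure (S.iA ⁻¹' M))
    (fun M hM x => S.mem_closure_preimage (hgood M hM) x)
    (fun M hM => (hgood M hM).retraction _ (S.mem_closure_preimage (hgood M hM)))
    (fun M hM hc => by
      have h2 : ((Subgroup.closure (S.iA ⁻¹' M) : Subgroup S.A) : Set S.A) = S.iA ⁻¹' M := by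
        ext x
        exact S.mem_closure_preimage (hgood M hM) x
      haveI : Countable (Subgroup.closure (S.iA ⁻¹' M) : Subgroup S.A) := by
        have h3 : ((Subgroup.closure (S.iA ⁻¹' M) : Subgroup S.A) : Set S.A).Countable := by
          rw [h2]
          exact hc.preimage S.iA_inj
        exact h3.to_subtype
      exact S.sdf_countable_subgroup _)
    Set.univ (fun F _ => Set.subset_univ _)
  refine h1.of_injective
    { toFun := fun x => ⟨x, Subgroup.subset_closure (Set.mem_univ _)⟩
      map_one' := rfl
      map_mul' := fun _ _ => rfl } ?_
  intro x y hxy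
  exact congrArg Subtype.val hxy

/-- The central quotient embeds in a restricted direct product of finite groups, in the
presence of the standing data. -/
theorem sdf_quotient (S : Setup G J n) : SDF (G ⧸ Subgroup.center G) := by
  refine SDF.of_injective S.sdf_A (QuotientGroup.lift (Subgroup.center G) S.inn ?_) ?_
  · intro x hx
    exact (S.inn_eq_one_iff x).mpr hx
  · rw [injective_iff_map_eq_one]
    intro x
    induction x using QuotientGroup.induction_on with
    | H k =>
      intro h
      have h1 : S.inn k = 1 := h
      exact (QuotientGroup.eq_one_iff k).mpr ((S.inn_eq_one_iff k).mp h1)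

end Setup

end Pool.Agent.FCU
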