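import Mathlib
import Pool.Agent.FCU.Pushout

set_option autoImplicit false
set_option linter.style.haveILetI false
set_option linter.unusedSectionVars false

namespace Pool.Agent.FCU

universe u

/-- An abelian group that embeds in a restricted direct product of finite groups embeds in a
direct sum of finite cyclic groups. -/
theorem SDF.exists_embedding {D : Type u} [CommGroup D] (h : SDF D) :
    ∃ (J : Type u) (n : J → ℕ), (∀ j, n j ≠ 0) ∧
      ∃ ι : D →* Multiplicative (Π₀ j, ZMod (n j)), Function.Injective ι := by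
  classical
  obtain ⟨I, F, i1, i2, f, hf, hfin⟩ := h
  let g : ∀ i, D →* F i := fun i => (Pi.evalMonoidHom F i).comp f
  have hB : ∀ i, Finite (D ⧸ (g i).ker) := fun i =>
    Finite.of_injective _ (QuotientGroup.kerLift_injective (g i))
  have h1 : ∀ i, ∃ (κ : Type) (_ : Fintype κ) (m : κ → ℕ), (∀ k, 1 < m k) ∧
      Nonempty ((D ⧸ (g i).ker) ≃* ((k : κ) → Multiplicative (ZMod (m k)))) := fun i => by
    haveI := hB i
    exact CommGroup.equiv_prod_multiplicative_zmod_of_finite _
  choose κ hκ m hm e using h1
  have e' := fun i => (e i).some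
  let J : Type u := Σ i, κ i
  let n : J → ℕ := fun p => m p.1 p.2
  let v : D → ∀ j : J, ZMod (n j) := fun d j =>
    Multiplicative.toAdd (e' j.1 (QuotientGroup.mk d) j.2)
  have hv : ∀ d, {j | v d j ≠ 0}.Finite := by
    intro d
    have h2 : {j | v d j ≠ 0} ⊆ ⋃ i ∈ {i | f d i ≠ 1}, Set.range (Sigma.mk i : κ i → J) := by
      rintro ⟨i, k⟩ hik
      have hik' : v d ⟨i, k⟩ ≠ 0 := hik
      rw [Set.mem_iUnion₂]
      refine ⟨i, ?_, k, rfl⟩
      intro h3
      apply hik'
      have h4 : (QuotientGroup.mk d : D ⧸ (g i).ker) = 1 := (QuotientGroup.eq_one_iff d).mpr h3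
      change Multiplicative.toAdd (e' i (QuotientGroup.mk d) k) = 0
      rw [h4, map_one]
      rfl
    refine ((hfin d).biUnion fun i _ => ?_).subset h2
    haveI := hκ i
    exact Set.finite_range _
  have hw : ∀ d, ∃ t : Π₀ j, ZMod (n j), ∀ j, t j = v d j := by
    intro d
    refine ⟨DFinsupp.mk (hv d).toFinset (fun j => v d j), ?_⟩
    intro j
    rw [DFinsupp.mk_apply]
    by_cases hj : j ∈ (hv d).toFinset
    · rw [dif_pos hj]
    · rw [dif_neg hj]
      by_contra hne
      exact hj ((hv d).mem_toFinset.mpr (fun h => hne h.symm))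
  choose w hw using hw
  refine ⟨J, n, fun j => (Nat.lt_trans Nat.zero_lt_one (hm j.1 j.2)).ne',
    MonoidHom.mk' (fun d => Multiplicative.ofAdd (w d)) ?_, ?_⟩
  · intro x y
    rw [← ofAdd_add]
    congr 1
    ext j
    rw [DFinsupp.add_apply, hw, hw, hw]
    change Multiplicative.toAdd (e' j.1 (QuotientGroup.mk (x * y)) j.2) =
      Multiplicative.toAdd (e' j.1 (QuotientGroup.mk x) j.2) +
      Multiplicative.toAdd (e' j.1 (QuotientGroup.mk y) j.2)
    rw [QuotientGroup.mk_mul, map_mul, Pi.mul_apply, toAdd_mul]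
  · intro x y hxy
    have h2 : w x = w y := Multiplicative.ofAdd.injective hxy
    apply hf
    funext i
    have h3 : (QuotientGroup.mk x : D ⧸ (g i).ker) = QuotientGroup.mk y := by
      apply (e' i).injective
      funext k
      have h4 : v x ⟨i, k⟩ = v y ⟨i, k⟩ := by rw [← hw, ← hw, h2]
      exact Multiplicative.toAdd.injective h4
    rw [QuotientGroup.eq, MonoidHom.mem_ker, map_mul, map_inv, inv_mul_eq_one] at h3
    exact h3

/-- The main theorem: if `G` is an FC-group such that the intersection of its derived subgroup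
with its center embeds in a restricted direct product of finite groups, then so does
`G ⧸ center G`. -/
theorem sdf_central_quotient {G : Type u} [Group G] (hG : IsFC G)
    (h : SDF ↥(commutator G ⊓ Subgroup.center G)) :
    SDF (G ⧸ Subgroup.center G) := by
  let D : Subgroup (Subgroup.center G) := (commutator G).subgroupOf (Subgroup.center G)
  have hD : SDF D := by
    refine SDF.of_injective h (MonoidHom.mk' (fun d : D => ⟨d.1.1, d.2, d.1.2⟩) ?_) ?_
    · intro x y
      rfl
    · intro x y hxy
      exact Subtype.ext (Subtype.ext (congrArg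
        (fun z : ↥(commutator G ⊓ Subgroup.center G) => (z : G)) hxy))
  letI : CommGroup D :=
    { (inferInstance : Group D) with
      mul_comm := fun x y =>
        Subtype.ext (Subtype.ext ((Subgroup.mem_center_iff.mp y.1.2) x.1.1)) }
  obtain ⟨J, n, hn, ι, hι⟩ := SDF.exists_embedding (D := D) hD
  refine sdf_of_embedding hG n hn ((Subgroup.center G).subtype.comp D.subtype) ?_ ?_ ?_ ι hι
  · intro x y hxy
    exact Subtype.ext (Subtype.ext hxy)
  · intro d
    exact d.1.2
  · intro g hg hgc
    exact ⟨⟨⟨g, hgc⟩, hg⟩, rfl⟩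

end Pool.Agent.FCU
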